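import Mathlib

/-!
# Cubic polynomial functions and rays

Basic algebra of cubic polynomial functions `F = T(x,x,x) + q(x,x) + l(x) + c` on a real vector
space, and the consequences of boundedness above on all rays of the nonnegative orthant.
-/

set_option autoImplicit false
set_option linter.unusedSectionVars false

namespace Pool.Agent.Helper91_PrimePoly

open Filter Topology

/-- cubic polynomial functions, given by symmetric multilinear forms -/
structure Cubic (V : Type) [AddCommGroup V] [Module ℝ V] where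
  T : V →ₗ[ℝ] V →ₗ[ℝ] V →ₗ[ℝ] ℝ
  q : V →ₗ[ℝ] V →ₗ[ℝ] ℝ
  l : V →ₗ[ℝ] ℝ
  c : ℝ
  T_comm : ∀ x y z, T x y z = T y x z
  T_comm' : ∀ x y z, T x y z = T x z y
  q_comm : ∀ x y, q x y = q y x

namespace Cubic

section Basic

variable {V : Type} [AddCommGroup V] [Module ℝ V] (F : Cubic V)

/-- the value of a cubic polynomial function -/
def ev (x : V) : ℝ := F.T x x x + F.q x x + F.l x + F.c

theorem T_rot (x y z : V) : F.T x y z = F.T y z x := by
  rw [F.T_comm x y z, F.T_comm' y x z]

theorem ev_add (x y : V) : F.ev (x + y) = F.ev x + (3 * F.T x x y + 2 * F.q x y + F.l y)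
    + (3 * F.T x y y + F.q y y) + F.T y y y := by
  have h1 : F.T x y x = F.T x x y := F.T_comm' x y x
  have h2 : F.T y x x = F.T x x y := by rw [F.T_comm y x x, h1]
  have h3 : F.T y x y = F.T x y y := F.T_comm y x y
  have h4 : F.T y y x = F.T x y y := by rw [F.T_comm' y y x, h3]
  have h5 : F.q y x = F.q x y := F.q_comm y x
  simp only [ev, map_add, LinearMap.add_apply, h1, h2, h3, h4, h5]
  ring

theorem ev_ray (x y : V) (R : ℝ) : F.ev (x + R • y) = F.ev x +
    R * (3 * F.T x x y + 2 * F.q x y + F.l y) + R ^ 2 * (3 * F.T x y y + F.q y y)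
      + R ^ 3 * F.T y y y := by
  rw [F.ev_add]
  simp only [map_smul, LinearMap.smul_apply, smul_eq_mul]
  ring

/-- the linear rate of growth along a direction `y` with `T y y = 0` and `q y y = 0` -/
def kap (y x : V) : ℝ := 3 * F.T x x y + 2 * F.q x y + F.l y

theorem ev_sub_flat (x y : V) (hT : ∀ z, F.T y y z = 0) (hq : F.q y y = 0) :
    F.ev (x - y) = F.ev x - F.kap y x := by
  have h := F.ev_ray x y (-1)
  have h1 : F.T x y y = 0 := by rw [F.T_rot, hT]
  have h2 : F.T y y y = 0 := hT y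
  rw [h1, h2, hq] at h
  rw [sub_eq_add_neg, ← neg_one_smul ℝ y, h, kap]
  ring

/-- precomposition with an affine map -/
noncomputable def comp {W : Type} [AddCommGroup W] [Module ℝ W] (A : W →ₗ[ℝ] V) (b : V) :
    Cubic W where
  T := (LinearMap.mk₂ ℝ (fun x y => (F.T (A x) (A y)).comp A)
    (by intro x x' y; ext z; simp) (by intro r x y; ext z; simp)
    (by intro x y y'; ext z; simp) (by intro r x y; ext z; simp))
  q := (LinearMap.mk₂ ℝ (fun x y => F.q (A x) (A y) + 3 * F.T (A x) (A y) b)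
    (by intro x x' y; simp; ring) (by intro r x y; simp; ring)
    (by intro x y y'; simp; ring) (by intro r x y; simp; ring))
  l := F.l.comp A + (2 : ℝ) • ((F.q.flip b).comp A) + (3 : ℝ) • ((F.T b b).comp A)
  c := F.ev b
  T_comm := fun x y z => F.T_comm _ _ _
  T_comm' := fun x y z => F.T_comm' _ _ _
  q_comm := fun x y => by
    simp only [LinearMap.mk₂_apply]
    rw [F.q_comm, F.T_comm]

theorem comp_ev {W : Type} [AddCommGroup W] [Module ℝ W] (A : W →ₗ[ℝ] V) (b : V) (x : W) :
    (F.comp A b).ev x = F.ev (A x + b) := by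
  rw [F.ev_add]
  simp only [comp, ev, LinearMap.mk₂_apply, LinearMap.comp_apply, LinearMap.add_apply,
    LinearMap.smul_apply, LinearMap.flip_apply, smul_eq_mul]
  have h1 : F.T b b (A x) = F.T (A x) b b := by rw [F.T_comm' b b, F.T_comm b (A x) b]
  rw [h1]
  ring

end Basic

end Cubic

/-- a cubic polynomial bounded above on the nonnegative reals has nonpositive leading
coefficient -/
theorem poly_bdd (a b c d M : ℝ) (h : ∀ R : ℝ, 0 ≤ R → d + R * c + R ^ 2 * b + R ^ 3 * a ≤ M) :
    a ≤ 0 ∧ (a = 0 → b ≤ 0) ∧ (a = 0 → b = 0 → c ≤ 0) := by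
  have hb := neg_abs_le b
  have hc := neg_abs_le c
  have hd := neg_abs_le d
  have hM := le_abs_self M
  have nb := abs_nonneg b
  have nc := abs_nonneg c
  have nd := abs_nonneg d
  have nM := abs_nonneg M
  set K := |b| + |c| + |d| + |M| + 1 with hK
  have hK1 : 1 ≤ K := by linarith
  refine ⟨?_, ?_, ?_⟩
  · by_contra ha
    push Not at ha
    have hR1 : 1 ≤ K / a + 1 := by
      have : 0 ≤ K / a := by positivity
      linarith
    set R := K / a + 1 with hR
    have hRa : K ≤ R * a := by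
      rw [hR, add_mul, div_mul_cancel₀ _ ha.ne']
      linarith
    have h2 : R ≤ R ^ 2 := by nlinarith
    have h3 : 1 ≤ R ^ 2 := by linarith
    have h4 := h R (by linarith)
    have e1 : R ^ 3 * a = R ^ 2 * (R * a) := by ring
    have e2 : R ^ 2 * K ≤ R ^ 2 * (R * a) := mul_le_mul_of_nonneg_left hRa (sq_nonneg R)
    have e3 : -(R ^ 2 * |b|) ≤ R ^ 2 * b := by nlinarith
    have e4 : -(R ^ 2 * |c|) ≤ R * c := by nlinarith
    have e5 : -(R ^ 2 * |d|) ≤ d := by nlinarith
    have e6 : |M| + 1 ≤ R ^ 2 * (|M| + 1) := by nlinarith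
    have e7 : R ^ 2 * K = R ^ 2 * |b| + R ^ 2 * |c| + R ^ 2 * |d| + R ^ 2 * (|M| + 1) := by
      rw [hK]
      ring
    linarith
  · intro ha
    by_contra hb0
    push Not at hb0
    have hR1 : 1 ≤ K / b + 1 := by
      have : 0 ≤ K / b := by positivity
      linarith
    set R := K / b + 1 with hR
    have hRa : K ≤ R * b := by
      rw [hR, add_mul, div_mul_cancel₀ _ hb0.ne']
      linarith
    have h4 := h R (by linarith)
    rw [ha] at h4
    have e1 : R ^ 2 * b = R * (R * b) := by ring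
    have e2 : R * K ≤ R * (R * b) := mul_le_mul_of_nonneg_left hRa (by linarith)
    have e4 : -(R * |c|) ≤ R * c := by nlinarith
    have e5 : -(R * |d|) ≤ d := by nlinarith
    have e6 : |M| + 1 ≤ R * (|M| + 1) := by nlinarith
    have e7 : R * K = R * |b| + R * |c| + R * |d| + R * (|M| + 1) := by
      rw [hK]
      ring
    have e8 : 0 ≤ R * |b| := by positivity
    linarith
  · intro ha hb1
    by_contra hc0
    push Not at hc0
    have hR1 : 1 ≤ K / c + 1 := by
      have : 0 ≤ K / c := by positivity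
      linarith
    set R := K / c + 1 with hR
    have hRa : K ≤ R * c := by
      rw [hR, add_mul, div_mul_cancel₀ _ hc0.ne']
      linarith
    have h4 := h R (by linarith)
    rw [ha, hb1] at h4
    linarith

/-- first-order consequence of nonpositivity near zero -/
theorem first_order (a b c : ℝ) (h : ∀ t : ℝ, 0 < t → t ≤ 1 → t * a + t ^ 2 * b + t ^ 3 * c ≤ 0) :
    a ≤ 0 := by
  by_contra ha
  push Not at ha
  set K := |b| + |c| + 1 with hK
  have hb := neg_abs_le b
  have hc := neg_abs_le c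
  have nb := abs_nonneg b
  have nc := abs_nonneg c
  have hK1 : 1 ≤ K := by linarith
  set t := min 1 (a / (2 * K)) with ht
  have ht0 : 0 < t := by
    rw [ht]
    exact lt_min one_pos (by positivity)
  have ht1 : t ≤ 1 := min_le_left _ _
  have ht2 : t * (2 * K) ≤ a := by
    have h1 : t ≤ a / (2 * K) := min_le_right _ _
    rwa [le_div_iff₀ (by positivity)] at h1
  have h1 := h t ht0 ht1
  have h2 : t * a + t ^ 2 * b + t ^ 3 * c = t * (a + t * b + t ^ 2 * c) := by ring
  have h3 : 0 < a + t * b + t ^ 2 * c := by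
    have e1 : -(t * |b|) ≤ t * b := by nlinarith
    have e2 : t ^ 2 ≤ t := by nlinarith
    have e3 : -(t * |c|) ≤ t ^ 2 * c := by
      have e4 : -(t ^ 2 * |c|) ≤ t ^ 2 * c := by nlinarith [sq_nonneg t]
      have e5 : t ^ 2 * |c| ≤ t * |c| := mul_le_mul_of_nonneg_right e2 nc
      linarith
    have e6 : t * (|b| + |c|) < t * (2 * K) := by
      apply mul_lt_mul_of_pos_left _ ht0
      linarith
    linarith
  rw [h2] at h1
  have := mul_pos ht0 h3
  linarith

section Coord

variable {ι : Type} [Fintype ι] [DecidableEq ι]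

/-- boundedness above on all rays from natural points in nonnegative directions -/
def RayBdd (F : Cubic (ι → ℝ)) : Prop :=
  ∀ (x : ι → ℕ) (y : ι → ℝ), (∀ i, 0 ≤ y i) →
    ∃ M : ℝ, ∀ R : ℝ, 0 ≤ R → F.ev ((fun i => (x i : ℝ)) + R • y) ≤ M

/-- the flat directions -/
structure Flat (F : Cubic (ι → ℝ)) (y : ι → ℝ) : Prop where
  nonneg : ∀ i, 0 ≤ y i
  T_zero : ∀ z, F.T y y z = 0
  q_zero : F.q y y = 0

theorem RayBdd.T_nonpos {F : Cubic (ι → ℝ)} (h : RayBdd F) (y : ι → ℝ) (hy : ∀ i, 0 ≤ y i) :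
    F.T y y y ≤ 0 := by
  obtain ⟨M, hM⟩ := h 0 y hy
  refine (poly_bdd _ (3 * F.T (fun i => ((0 : ι → ℕ) i : ℝ)) y y + F.q y y)
    (3 * F.T (fun i => ((0 : ι → ℕ) i : ℝ)) (fun i => ((0 : ι → ℕ) i : ℝ)) y +
      2 * F.q (fun i => ((0 : ι → ℕ) i : ℝ)) y + F.l y)
    (F.ev (fun i => ((0 : ι → ℕ) i : ℝ))) M fun R hR => ?_).1
  have := hM R hR
  rw [F.ev_ray] at this
  exact this

theorem RayBdd.q_nonpos {F : Cubic (ι → ℝ)} (h : RayBdd F) (y : ι → ℝ) (hy : ∀ i, 0 ≤ y i)
    (hT : F.T y y y = 0) : F.q y y ≤ 0 := by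
  obtain ⟨M, hM⟩ := h 0 y hy
  have h0 : (fun i => ((0 : ι → ℕ) i : ℝ)) = (0 : ι → ℝ) := by
    funext i
    simp
  rw [h0] at hM
  have h1 := (poly_bdd (F.T y y y) (3 * F.T 0 y y + F.q y y)
    (3 * F.T 0 0 y + 2 * F.q 0 y + F.l y) (F.ev 0) M fun R hR => ?_).2.1 hT
  · simpa using h1
  · have := hM R hR
    rw [F.ev_ray] at this
    exact this

theorem RayBdd.kap_nonpos {F : Cubic (ι → ℝ)} (h : RayBdd F) (y : ι → ℝ) (hy : Flat F y)
    (x : ι → ℕ) : F.kap y (fun i => (x i : ℝ)) ≤ 0 := by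
  obtain ⟨M, hM⟩ := h x y hy.nonneg
  set X : ι → ℝ := fun i => (x i : ℝ) with hX
  have hT1 : F.T y y y = 0 := hy.T_zero y
  have hT2 : 3 * F.T X y y + F.q y y = 0 := by
    rw [F.T_rot, hy.T_zero, hy.q_zero]
    ring
  refine (poly_bdd (F.T y y y) (3 * F.T X y y + F.q y y)
    (3 * F.T X X y + 2 * F.q X y + F.l y) (F.ev X) M fun R hR => ?_).2.2 hT1 hT2
  have := hM R hR
  rw [F.ev_ray] at this
  exact this

/-- moving back along a flat direction does not decrease the value at a natural point -/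
theorem RayBdd.ev_sub {F : Cubic (ι → ℝ)} (h : RayBdd F) (y : ι → ℝ) (hy : Flat F y)
    (x : ι → ℕ) : F.ev (fun i => (x i : ℝ)) ≤ F.ev ((fun i => (x i : ℝ)) - y) := by
  rw [F.ev_sub_flat _ y hy.T_zero hy.q_zero]
  have := h.kap_nonpos y hy x
  linarith

/-- the gradient of the cubic part at a zero is nonpositive -/
theorem RayBdd.grad_nonpos {F : Cubic (ι → ℝ)} (h : RayBdd F) (w z : ι → ℝ)
    (hw : ∀ i, 0 ≤ w i) (hz : ∀ i, 0 ≤ z i) (hT : F.T w w w = 0) : F.T w w z ≤ 0 := by
  have h1 : 3 * F.T w w z ≤ 0 := by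
    refine first_order _ (3 * F.T w z z) (F.T z z z) fun t ht0 ht1 => ?_
    have h2 := h.T_nonpos (w + t • z) (fun i => by
      have := hw i
      have := hz i
      simp only [Pi.add_apply, Pi.smul_apply, smul_eq_mul]
      positivity)
    have h3 : F.T (w + t • z) (w + t • z) (w + t • z) =
        F.T w w w + (t * (3 * F.T w w z) + t ^ 2 * (3 * F.T w z z) + t ^ 3 * F.T z z z) := by
      have e1 : F.T w z w = F.T w w z := F.T_comm' w z w
      have e2 : F.T z w w = F.T w w z := by rw [F.T_comm z w w, e1]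
      have e3 : F.T z w z = F.T w z z := F.T_comm z w z
      have e4 : F.T z z w = F.T w z z := by rw [F.T_comm' z z w, e3]
      simp only [map_add, LinearMap.add_apply, map_smul, LinearMap.smul_apply, smul_eq_mul,
        e1, e2, e3, e4]
      ring
    rw [h3, hT] at h2
    linarith
  linarith

/-- compatibility of flat directions with nested supports -/
theorem RayBdd.compat {F : Cubic (ι → ℝ)} (h : RayBdd F) (y y' : ι → ℝ) (hy : Flat F y)
    (hy' : Flat F y') (hs : ∀ i, y' i ≠ 0 → y i ≠ 0) :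
    (∀ z, F.T y y' z = 0) ∧ F.q y y' = 0 := by
  -- a small multiple of `y'` can be subtracted
  obtain ⟨ε, hε0, hε⟩ : ∃ ε : ℝ, 0 < ε ∧ ∀ i, 0 ≤ y i - ε * y' i := by
    have h1 : ∀ i, ∀ᶠ ε : ℝ in 𝓝[>] 0, 0 ≤ y i - ε * y' i := by
      intro i
      by_cases h0 : y' i = 0
      · refine Eventually.of_forall fun ε => ?_
        rw [h0, mul_zero, sub_zero]
        exact hy.nonneg i
      · have hpos : 0 < y i := lt_of_le_of_ne (hy.nonneg i) (Ne.symm (hs i h0))
        have hc : Tendsto (fun ε : ℝ => y i - ε * y' i) (𝓝[>] 0) (𝓝 (y i - 0 * y' i)) := by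
          apply tendsto_nhdsWithin_of_tendsto_nhds
          exact (continuous_const.sub (continuous_id.mul continuous_const)).tendsto 0
        rw [zero_mul, sub_zero] at hc
        exact (hc.eventually (lt_mem_nhds hpos)).mono fun ε h => le_of_lt h
    have h2 := (eventually_all.2 h1).and self_mem_nhdsWithin
    obtain ⟨ε, h3, h4⟩ := h2.exists
    exact ⟨ε, h4, h3⟩
  have c1 : ∀ z, F.T y' y z = F.T y y' z := fun z => F.T_comm y' y z
  have hyy'y : F.T y y' y = 0 := by rw [F.T_comm' y y' y, hy.T_zero]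
  have hyy'y' : F.T y y' y' = 0 := by rw [F.T_rot, hy'.T_zero]
  have hw1 : ∀ z, F.T (y - ε • y') (y - ε • y') z = -2 * ε * F.T y y' z := by
    intro z
    simp only [map_sub, LinearMap.sub_apply, map_smul, LinearMap.smul_apply, smul_eq_mul, c1,
      hy.T_zero, hy'.T_zero]
    ring
  have hw2 : ∀ z, F.T (y + y') (y + y') z = 2 * F.T y y' z := by
    intro z
    simp only [map_add, LinearMap.add_apply, c1, hy.T_zero, hy'.T_zero]
    ring
  have hn1 : ∀ i, 0 ≤ (y - ε • y') i := by
    intro i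
    simp only [Pi.sub_apply, Pi.smul_apply, smul_eq_mul]
    exact hε i
  have hn2 : ∀ i, 0 ≤ (y + y') i := by
    intro i
    simp only [Pi.add_apply]
    exact add_nonneg (hy.nonneg i) (hy'.nonneg i)
  have t1 : F.T (y - ε • y') (y - ε • y') (y - ε • y') = 0 := by
    rw [hw1]
    simp only [map_sub, map_smul, smul_eq_mul, hyy'y, hyy'y']
    ring
  have t2 : F.T (y + y') (y + y') (y + y') = 0 := by
    rw [hw2]
    simp only [map_add, hyy'y, hyy'y']
    ring
  have hpos : ∀ z : ι → ℝ, (∀ i, 0 ≤ z i) → F.T y y' z = 0 := by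
    intro z hz
    have g1 := h.grad_nonpos _ z hn1 hz t1
    have g2 := h.grad_nonpos _ z hn2 hz t2
    rw [hw1] at g1
    rw [hw2] at g2
    have g3 : 0 ≤ F.T y y' z := by
      by_contra hneg
      push Not at hneg
      nlinarith
    linarith
  refine ⟨fun z => ?_, ?_⟩
  · have hz : z = (fun i => max (z i) 0) - (fun i => max (-z i) 0) := by
      funext i
      simp only [Pi.sub_apply]
      rcases le_total 0 (z i) with hi | hi
      · rw [max_eq_left hi, max_eq_right (by linarith)]
        ring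
      · rw [max_eq_right hi, max_eq_left (by linarith)]
        ring
    rw [hz, map_sub, hpos _ (fun i => le_max_right _ _), hpos _ (fun i => le_max_right _ _), sub_zero]
  · have g1 := h.q_nonpos _ hn1 t1
    have g2 := h.q_nonpos _ hn2 t2
    have c2 : F.q y' y = F.q y y' := F.q_comm y' y
    have e1 : F.q (y - ε • y') (y - ε • y') = -2 * ε * F.q y y' := by
      simp only [map_sub, LinearMap.sub_apply, map_smul, LinearMap.smul_apply, smul_eq_mul, c2,
        hy.q_zero, hy'.q_zero]
      ring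
    have e2 : F.q (y + y') (y + y') = 2 * F.q y y' := by
      simp only [map_add, LinearMap.add_apply, c2, hy.q_zero, hy'.q_zero]
      ring
    rw [e1] at g1
    rw [e2] at g2
    have g3 : 0 ≤ F.q y y' := by
      by_contra hneg
      push Not at hneg
      nlinarith
    linarith

theorem Flat.add {F : Cubic (ι → ℝ)} (h : RayBdd F) {y y' : ι → ℝ} (hy : Flat F y)
    (hy' : Flat F y') (hs : ∀ i, y' i ≠ 0 → y i ≠ 0) : Flat F (y + y') := by
  obtain ⟨h1, h2⟩ := h.compat y y' hy hy' hs
  have c1 : ∀ z, F.T y' y z = F.T y y' z := fun z => F.T_comm y' y z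
  have c2 : F.q y' y = F.q y y' := F.q_comm y' y
  refine ⟨fun i => add_nonneg (hy.nonneg i) (hy'.nonneg i), fun z => ?_, ?_⟩
  · simp only [map_add, LinearMap.add_apply, c1, hy.T_zero, hy'.T_zero, h1]
    ring
  · simp only [map_add, LinearMap.add_apply, c2, hy.q_zero, hy'.q_zero, h2]
    ring

theorem Flat.smul {F : Cubic (ι → ℝ)} {y : ι → ℝ} (hy : Flat F y) {t : ℝ} (ht : 0 ≤ t) :
    Flat F (t • y) := by
  refine ⟨fun i => mul_nonneg ht (hy.nonneg i), fun z => ?_, ?_⟩
  · simp only [map_smul, LinearMap.smul_apply, smul_eq_mul, hy.T_zero]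
    ring
  · simp only [map_smul, LinearMap.smul_apply, smul_eq_mul, hy.q_zero]
    ring

/-- coordinate expansion of the trilinear form -/
theorem T_expand (F : Cubic (ι → ℝ)) (x y z : ι → ℝ) :
    F.T x y z = ∑ i, ∑ j, ∑ k, x i * (y j * (z k *
      F.T (fun a => if i = a then 1 else 0) (fun a => if j = a then 1 else 0)
        (fun a => if k = a then 1 else 0))) := by
  rw [LinearMap.pi_apply_eq_sum_univ F.T x]
  simp only [LinearMap.sum_apply, LinearMap.smul_apply, smul_eq_mul]
  refine Finset.sum_congr rfl fun i _ => ?_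
  rw [LinearMap.pi_apply_eq_sum_univ (F.T (fun a => if i = a then 1 else 0)) y]
  simp only [LinearMap.sum_apply, LinearMap.smul_apply, smul_eq_mul]
  rw [Finset.mul_sum]
  refine Finset.sum_congr rfl fun j _ => ?_
  rw [LinearMap.pi_apply_eq_sum_univ (F.T (fun a => if i = a then 1 else 0)
    (fun a => if j = a then 1 else 0)) z]
  simp only [smul_eq_mul]
  rw [Finset.mul_sum, Finset.mul_sum]

theorem q_expand (F : Cubic (ι → ℝ)) (x y : ι → ℝ) :
    F.q x y = ∑ i, ∑ j, x i * (y j *
      F.q (fun a => if i = a then 1 else 0) (fun a => if j = a then 1 else 0)) := by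
  rw [LinearMap.pi_apply_eq_sum_univ F.q x]
  simp only [LinearMap.sum_apply, LinearMap.smul_apply, smul_eq_mul]
  refine Finset.sum_congr rfl fun i _ => ?_
  rw [LinearMap.pi_apply_eq_sum_univ (F.q (fun a => if i = a then 1 else 0)) y]
  simp only [smul_eq_mul]
  rw [Finset.mul_sum]

theorem l_expand (F : Cubic (ι → ℝ)) (x : ι → ℝ) :
    F.l x = ∑ i, x i * F.l (fun a => if i = a then 1 else 0) := by
  rw [LinearMap.pi_apply_eq_sum_univ F.l x]
  simp only [smul_eq_mul]

theorem T_tendsto {α : Type} {f : Filter α} (F : Cubic (ι → ℝ)) {x y z : α → ι → ℝ}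
    {a b c : ι → ℝ} (hx : Tendsto x f (𝓝 a)) (hy : Tendsto y f (𝓝 b)) (hz : Tendsto z f (𝓝 c)) :
    Tendsto (fun k => F.T (x k) (y k) (z k)) f (𝓝 (F.T a b c)) := by
  rw [T_expand F a b c, show (fun k => F.T (x k) (y k) (z k)) = _ from
    funext fun k => T_expand F (x k) (y k) (z k)]
  refine tendsto_finsetSum _ fun i _ => tendsto_finsetSum _ fun j _ =>
    tendsto_finsetSum _ fun k _ => ?_
  exact (tendsto_pi_nhds.1 hx i).mul ((tendsto_pi_nhds.1 hy j).mul
    ((tendsto_pi_nhds.1 hz k).mul tendsto_const_nhds))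

theorem q_tendsto {α : Type} {f : Filter α} (F : Cubic (ι → ℝ)) {x y : α → ι → ℝ}
    {a b : ι → ℝ} (hx : Tendsto x f (𝓝 a)) (hy : Tendsto y f (𝓝 b)) :
    Tendsto (fun k => F.q (x k) (y k)) f (𝓝 (F.q a b)) := by
  rw [q_expand F a b, show (fun k => F.q (x k) (y k)) = _ from
    funext fun k => q_expand F (x k) (y k)]
  refine tendsto_finsetSum _ fun i _ => tendsto_finsetSum _ fun j _ => ?_
  exact (tendsto_pi_nhds.1 hx i).mul ((tendsto_pi_nhds.1 hy j).mul tendsto_const_nhds)

theorem l_tendsto {α : Type} {f : Filter α} (F : Cubic (ι → ℝ)) {x : α → ι → ℝ}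
    {a : ι → ℝ} (hx : Tendsto x f (𝓝 a)) :
    Tendsto (fun k => F.l (x k)) f (𝓝 (F.l a)) := by
  rw [l_expand F a, show (fun k => F.l (x k)) = _ from funext fun k => l_expand F (x k)]
  refine tendsto_finsetSum _ fun i _ => ?_
  exact (tendsto_pi_nhds.1 hx i).mul tendsto_const_nhds

theorem ev_tendsto {α : Type} {f : Filter α} (F : Cubic (ι → ℝ)) {x : α → ι → ℝ}
    {a : ι → ℝ} (hx : Tendsto x f (𝓝 a)) :
    Tendsto (fun k => F.ev (x k)) f (𝓝 (F.ev a)) := by
  unfold Cubic.ev
  exact (((T_tendsto F hx hx hx).add (q_tendsto F hx hx)).add (l_tendsto F hx)).add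
    tendsto_const_nhds

theorem ev_continuous (F : Cubic (ι → ℝ)) : Continuous F.ev := by
  rw [continuous_iff_continuousAt]
  intro a
  exact ev_tendsto F (tendsto_id)

end Coord

end Pool.Agent.Helper91_PrimePoly
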