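import Pool.Agent.Helper91_PrimePoly.Cubic

/-!
# Limit directions are flat

Let `F` be a cubic polynomial function bounded above on all rays of the nonnegative orthant.  If
`F` is nonnegative along a sequence all of whose coordinates tend to infinity, then the limit
direction is flat.
-/

set_option autoImplicit false
set_option linter.unusedSectionVars false

namespace Pool.Agent.Helper91_PrimePoly

open Filter Topology

section Coord

variable {ι : Type} [Fintype ι] [DecidableEq ι]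

theorem T_add_cube (F : Cubic (ι → ℝ)) (x y : ι → ℝ) : F.T (x + y) (x + y) (x + y) =
    F.T x x x + 3 * F.T x x y + 3 * F.T x y y + F.T y y y := by
  have h1 : F.T x y x = F.T x x y := F.T_comm' x y x
  have h2 : F.T y x x = F.T x x y := by rw [F.T_comm y x x, h1]
  have h3 : F.T y x y = F.T x y y := F.T_comm y x y
  have h4 : F.T y y x = F.T x y y := by rw [F.T_comm' y y x, h3]
  simp only [map_add, LinearMap.add_apply, h1, h2, h3, h4]
  ring

/-- bounded sequences converge along an ultrafilter -/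
theorem ultra_lim (U : Ultrafilter ℕ) (b : ℕ → ι → ℝ) (C : ℝ) (hb : ∀ k, ‖b k‖ ≤ C) :
    ∃ x : ι → ℝ, Tendsto b U (𝓝 x) := by
  have hc : IsCompact (Metric.closedBall (0 : ι → ℝ) C) := isCompact_closedBall 0 C
  have hm : Metric.closedBall (0 : ι → ℝ) C ∈ U.map b := by
    rw [Ultrafilter.mem_map]
    have : b ⁻¹' Metric.closedBall (0 : ι → ℝ) C = Set.univ := by
      ext k
      simp [hb k]
    rw [this]
    exact univ_mem
  obtain ⟨x, -, hx⟩ := hc.ultrafilter_le_nhds' (U.map b) hm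
  exact ⟨x, hx⟩

theorem norm_inv_smul_le (z : ι → ℝ) : ‖(‖z‖⁻¹ • z : ι → ℝ)‖ ≤ 1 := by
  rw [norm_smul, norm_inv, norm_norm]
  exact inv_mul_le_one

theorem norm_inv_smul_eq {z : ι → ℝ} (hz : 0 < ‖z‖) : ‖(‖z‖⁻¹ • z : ι → ℝ)‖ = 1 := by
  rw [norm_smul, norm_inv, norm_norm, inv_mul_cancel₀ hz.ne']

theorem RayBdd.flat_limit {F : Cubic (ι → ℝ)} (h : RayBdd F) (U : Ultrafilter ℕ)
    (w : ℕ → ι → ℝ) (R : ℕ → ℝ) (v : ι → ℝ) (hR : Tendsto R U atTop)
    (hw : ∀ i, Tendsto (fun k => w k i) U atTop)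
    (hF : ∀ᶠ k in (U : Filter ℕ), 0 ≤ F.ev (w k))
    (hv : Tendsto (fun k => (R k)⁻¹ • w k) U (𝓝 v)) : Flat F v := by
  classical
  have hRpos : ∀ᶠ k in (U : Filter ℕ), 0 < R k := hR.eventually_gt_atTop 0
  have hr : Tendsto (fun k => (R k)⁻¹) U (𝓝 0) := tendsto_inv_atTop_zero.comp hR
  have hwpos : ∀ᶠ k in (U : Filter ℕ), ∀ i, 0 ≤ w k i :=
    eventually_all.2 fun i => (hw i).eventually_ge_atTop 0
  -- nonnegativity
  have hv0 : ∀ i, 0 ≤ v i := by
    intro i
    refine ge_of_tendsto ((tendsto_pi_nhds.1 hv) i) ?_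
    filter_upwards [hRpos, hwpos] with k h1 h2
    simp only [Pi.smul_apply, smul_eq_mul]
    exact mul_nonneg (inv_nonneg.2 h1.le) (h2 i)
  -- the cubic part vanishes at `v`
  have hTv : F.T v v v = 0 := by
    refine le_antisymm (h.T_nonpos v hv0) ?_
    have hlim : Tendsto (fun k => F.T ((R k)⁻¹ • w k) ((R k)⁻¹ • w k) ((R k)⁻¹ • w k) +
        (R k)⁻¹ * F.q ((R k)⁻¹ • w k) ((R k)⁻¹ • w k) + (R k)⁻¹ ^ 2 * F.l ((R k)⁻¹ • w k) +
        (R k)⁻¹ ^ 3 * F.c) U (𝓝 (F.T v v v + 0 * F.q v v + 0 ^ 2 * F.l v + 0 ^ 3 * F.c)) :=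
      (((T_tendsto F hv hv hv).add (hr.mul (q_tendsto F hv hv))).add
        ((hr.pow 2).mul (l_tendsto F hv))).add ((hr.pow 3).mul tendsto_const_nhds)
    have e0 : F.T v v v + 0 * F.q v v + 0 ^ 2 * F.l v + 0 ^ 3 * F.c = F.T v v v := by ring
    rw [e0] at hlim
    refine ge_of_tendsto hlim ?_
    filter_upwards [hRpos, hF] with k h1 h2
    have e1 : F.ev (w k) = R k ^ 3 * (F.T ((R k)⁻¹ • w k) ((R k)⁻¹ • w k) ((R k)⁻¹ • w k) +
        (R k)⁻¹ * F.q ((R k)⁻¹ • w k) ((R k)⁻¹ • w k) + (R k)⁻¹ ^ 2 * F.l ((R k)⁻¹ • w k) +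
        (R k)⁻¹ ^ 3 * F.c) := by
      simp only [Cubic.ev, map_smul, LinearMap.smul_apply, smul_eq_mul]
      field_simp
    rw [e1] at h2
    exact nonneg_of_mul_nonneg_right h2 (by positivity)
  -- the gradient vanishes at `v`
  have hgrad : ∀ z, F.T v v z = 0 := by
    by_contra hne
    push Not at hne
    obtain ⟨z₀, hz₀⟩ := hne
    set e : ι → ι → ℝ := fun i a => if i = a then 1 else 0 with he
    have he0 : ∀ i a, 0 ≤ e i a := by
      intro i a
      simp only [he]
      split_ifs <;> norm_num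
    have hexp : ∀ z, F.T v v z = ∑ i, z i * F.T v v (e i) := by
      intro z
      rw [LinearMap.pi_apply_eq_sum_univ (F.T v v) z]
      simp only [smul_eq_mul, he]
    have hnp : ∀ i, F.T v v (e i) ≤ 0 := fun i => h.grad_nonpos v (e i) hv0 (he0 i) hTv
    obtain ⟨i₀, hi₀⟩ : ∃ i₀, F.T v v (e i₀) < 0 := by
      by_contra hall
      push Not at hall
      apply hz₀
      rw [hexp]
      refine Finset.sum_eq_zero fun i _ => ?_
      rw [le_antisymm (hnp i) (hall i), mul_zero]
    have hvI : ∀ i, F.T v v (e i) < 0 → v i = 0 := by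
      intro i hi
      have h1 : ∀ j ∈ Finset.univ, v j * F.T v v (e j) ≤ 0 := fun j _ =>
        mul_nonpos_of_nonneg_of_nonpos (hv0 j) (hnp j)
      have h2 := (Finset.sum_eq_zero_iff_of_nonpos h1).1 (by rw [← hexp, hTv]) i (Finset.mem_univ i)
      rcases mul_eq_zero.1 h2 with h3 | h3
      · exact h3
      · exact absurd h3 hi.ne
    -- split off the coordinates with negative gradient
    set ws : ℕ → ι → ℝ := fun k i => if F.T v v (e i) < 0 then w k i else 0 with hws
    set s : ℕ → ℝ := fun k => ‖ws k‖ with hs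
    have hs_top : Tendsto s U atTop := by
      refine tendsto_atTop_mono (fun k => ?_) (hw i₀)
      have h1 := norm_le_pi_norm (ws k) i₀
      have h2 : ws k i₀ = w k i₀ := by simp only [hws, if_pos hi₀]
      rw [h2] at h1
      exact (le_abs_self _).trans h1
    have hspos : ∀ᶠ k in (U : Filter ℕ), 0 < s k := hs_top.eventually_gt_atTop 0
    have hsinv : Tendsto (fun k => (s k)⁻¹) U (𝓝 0) := tendsto_inv_atTop_zero.comp hs_top
    obtain ⟨b, hb⟩ := ultra_lim U (fun k => ‖ws k‖⁻¹ • ws k) 1 (fun k => norm_inv_smul_le _)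
    have hb0 : ∀ i, 0 ≤ b i := by
      intro i
      refine ge_of_tendsto ((tendsto_pi_nhds.1 hb) i) ?_
      filter_upwards [hwpos] with k h2
      simp only [Pi.smul_apply, smul_eq_mul]
      refine mul_nonneg (inv_nonneg.2 (norm_nonneg _)) ?_
      simp only [hws]
      split_ifs
      · exact h2 i
      · exact le_rfl
    have hbI : ∀ i, ¬ F.T v v (e i) < 0 → b i = 0 := by
      intro i hi
      refine tendsto_nhds_unique ((tendsto_pi_nhds.1 hb) i) ?_
      have : (fun k => (‖ws k‖⁻¹ • ws k) i) = fun k => (0 : ℝ) := by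
        funext k
        simp only [Pi.smul_apply, smul_eq_mul, hws, if_neg hi, mul_zero]
      rw [this]
      exact tendsto_const_nhds
    have hbnorm : ‖b‖ = 1 := by
      refine tendsto_nhds_unique hb.norm ?_
      refine (tendsto_const_nhds (x := (1 : ℝ))).congr' ?_
      filter_upwards [hspos] with k hk
      exact (norm_inv_smul_eq hk).symm
    have hbT : F.T v v b < 0 := by
      obtain ⟨j, hj⟩ : ∃ j, b j ≠ 0 := by
        by_contra hall
        push Not at hall
        have : b = 0 := funext hall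
        rw [this, norm_zero] at hbnorm
        exact zero_ne_one hbnorm
      have hj' : F.T v v (e j) < 0 := by
        by_contra hn
        exact hj (hbI j hn)
      rw [hexp]
      refine Finset.sum_neg' (fun i _ => mul_nonpos_of_nonneg_of_nonpos (hb0 i) (hnp i))
        ⟨j, Finset.mem_univ j, ?_⟩
      exact mul_neg_of_pos_of_neg (lt_of_le_of_ne (hb0 j) (Ne.symm hj)) hj'
    -- the small part is small
    have hsmall : Tendsto (fun k => (R k)⁻¹ • ws k) U (𝓝 0) := by
      rw [tendsto_pi_nhds]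
      intro i
      by_cases hi : F.T v v (e i) < 0
      · have h1 := (tendsto_pi_nhds.1 hv) i
        rw [hvI i hi] at h1
        have : (fun k => ((R k)⁻¹ • ws k) i) = fun k => ((R k)⁻¹ • w k) i := by
          funext k
          simp only [Pi.smul_apply, smul_eq_mul, hws, if_pos hi]
        rw [this]
        exact h1
      · have : (fun k => ((R k)⁻¹ • ws k) i) = fun k => (0 : ℝ) := by
          funext k
          simp only [Pi.smul_apply, smul_eq_mul, hws, if_neg hi, mul_zero]
        rw [this]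
        exact tendsto_const_nhds
    have hrho : Tendsto (fun k => s k * (R k)⁻¹) U (𝓝 0) := by
      have h1 := hsmall.norm
      rw [norm_zero] at h1
      refine h1.congr' ?_
      filter_upwards [hRpos] with k hk
      rw [norm_smul, norm_inv, Real.norm_eq_abs, abs_of_pos hk, mul_comm]
    have hab : Tendsto (fun k => (R k)⁻¹ • (w k - ws k)) U (𝓝 v) := by
      have h1 := hv.sub hsmall
      rw [sub_zero] at h1
      refine h1.congr fun k => ?_
      rw [smul_sub]
    -- the limit of the normalized value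
    set ab : ℕ → ι → ℝ := fun k => (R k)⁻¹ • (w k - ws k) with habdef
    set bk : ℕ → ι → ℝ := fun k => ‖ws k‖⁻¹ • ws k with hbk
    set ak : ℕ → ι → ℝ := fun k => (R k)⁻¹ • w k with hak
    have hG : Tendsto (fun k => 3 * F.T (ab k) (ab k) (bk k) +
        (s k * (R k)⁻¹) * (3 * F.T (ab k) (bk k) (bk k)) +
        (s k * (R k)⁻¹) ^ 2 * F.T (bk k) (bk k) (bk k) +
        (s k)⁻¹ * (F.q (ak k) (ak k) + (R k)⁻¹ * F.l (ak k) + (R k)⁻¹ ^ 2 * F.c)) U
        (𝓝 (3 * F.T v v b + 0 * (3 * F.T v b b) + 0 ^ 2 * F.T b b b +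
          0 * (F.q v v + 0 * F.l v + 0 ^ 2 * F.c))) := by
      refine (((?_ : Tendsto _ _ _).add ?_).add ?_).add ?_
      · exact (T_tendsto F hab hab hb).const_mul 3
      · exact hrho.mul ((T_tendsto F hab hb hb).const_mul 3)
      · exact (hrho.pow 2).mul (T_tendsto F hb hb hb)
      · exact hsinv.mul (((q_tendsto F hv hv).add (hr.mul (l_tendsto F hv))).add
          ((hr.pow 2).mul tendsto_const_nhds))
    have e0 : 3 * F.T v v b + 0 * (3 * F.T v b b) + 0 ^ 2 * F.T b b b +
          0 * (F.q v v + 0 * F.l v + 0 ^ 2 * F.c) = 3 * F.T v v b := by ring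
    rw [e0] at hG
    have hneg := hG.eventually_lt_const (show 3 * F.T v v b < 0 by linarith)
    obtain ⟨k, hk1, hk2, hk3, hk4, hk5⟩ := (hneg.and (hRpos.and (hspos.and (hwpos.and hF)))).exists
    have hwb0 : ∀ i, 0 ≤ (w k - ws k) i := by
      intro i
      simp only [Pi.sub_apply, hws]
      split_ifs
      · simp
      · simpa using hk4 i
    have hTb := h.T_nonpos _ hwb0
    have ewb : w k - ws k = R k • ab k := by
      simp only [habdef]
      rw [smul_inv_smul₀ hk2.ne']
    have ews : ws k = s k • bk k := by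
      simp only [hbk, hs]
      rw [smul_inv_smul₀ hk3.ne']
    have ewk : w k = R k • ak k := by
      simp only [hak]
      rw [smul_inv_smul₀ hk2.ne']
    have hsplit : w k = (w k - ws k) + ws k := by abel
    have e1 : F.T (w k) (w k) (w k) = F.T (w k - ws k) (w k - ws k) (w k - ws k) +
        3 * (R k ^ 2 * s k * F.T (ab k) (ab k) (bk k)) +
        3 * (R k * s k ^ 2 * F.T (ab k) (bk k) (bk k)) +
        s k ^ 3 * F.T (bk k) (bk k) (bk k) := by
      have f1 : F.T (w k - ws k) (w k - ws k) (ws k) = R k ^ 2 * s k * F.T (ab k) (ab k) (bk k) := by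
        rw [ewb, ews]
        simp only [map_smul, LinearMap.smul_apply, smul_eq_mul]
        ring
      have f2 : F.T (w k - ws k) (ws k) (ws k) = R k * s k ^ 2 * F.T (ab k) (bk k) (bk k) := by
        rw [ewb, ews]
        simp only [map_smul, LinearMap.smul_apply, smul_eq_mul]
        ring
      have f3 : F.T (ws k) (ws k) (ws k) = s k ^ 3 * F.T (bk k) (bk k) (bk k) := by
        rw [ews]
        simp only [map_smul, LinearMap.smul_apply, smul_eq_mul]
        ring
      rw [← f1, ← f2, ← f3]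
      have f4 := T_add_cube F (w k - ws k) (ws k)
      rw [← hsplit] at f4
      exact f4
    have e2 : F.q (w k) (w k) = R k ^ 2 * F.q (ak k) (ak k) := by
      rw [ewk]
      simp only [map_smul, LinearMap.smul_apply, smul_eq_mul]
      ring
    have e3 : F.l (w k) = R k * F.l (ak k) := by
      rw [ewk]
      simp only [map_smul, smul_eq_mul]
    have e4 : F.ev (w k) = F.T (w k - ws k) (w k - ws k) (w k - ws k) + R k ^ 2 * s k *
        (3 * F.T (ab k) (ab k) (bk k) +
        (s k * (R k)⁻¹) * (3 * F.T (ab k) (bk k) (bk k)) +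
        (s k * (R k)⁻¹) ^ 2 * F.T (bk k) (bk k) (bk k) +
        (s k)⁻¹ * (F.q (ak k) (ak k) + (R k)⁻¹ * F.l (ak k) + (R k)⁻¹ ^ 2 * F.c)) := by
      rw [Cubic.ev, e1, e2, e3]
      have hRk := hk2.ne'
      have hsk := hk3.ne'
      field_simp
      ring
    rw [e4] at hk5
    have h6 : R k ^ 2 * s k * (3 * F.T (ab k) (ab k) (bk k) +
        (s k * (R k)⁻¹) * (3 * F.T (ab k) (bk k) (bk k)) +
        (s k * (R k)⁻¹) ^ 2 * F.T (bk k) (bk k) (bk k) +
        (s k)⁻¹ * (F.q (ak k) (ak k) + (R k)⁻¹ * F.l (ak k) + (R k)⁻¹ ^ 2 * F.c)) < 0 :=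
      mul_neg_of_pos_of_neg (by positivity) hk1
    linarith
  -- the quadratic part vanishes at `v`
  refine ⟨hv0, hgrad, le_antisymm (h.q_nonpos v hv0 hTv) ?_⟩
  have hlim : Tendsto (fun k => F.q ((R k)⁻¹ • w k) ((R k)⁻¹ • w k) +
      (R k)⁻¹ * F.l ((R k)⁻¹ • w k) + (R k)⁻¹ ^ 2 * F.c) U
      (𝓝 (F.q v v + 0 * F.l v + 0 ^ 2 * F.c)) :=
    ((q_tendsto F hv hv).add (hr.mul (l_tendsto F hv))).add ((hr.pow 2).mul tendsto_const_nhds)
  have e0 : F.q v v + 0 * F.l v + 0 ^ 2 * F.c = F.q v v := by ring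
  rw [e0] at hlim
  refine ge_of_tendsto hlim ?_
  filter_upwards [hRpos, hF, hwpos] with k h1 h2 h3
  have h4 := h.T_nonpos (w k) h3
  have e1 : F.q (w k) (w k) + F.l (w k) + F.c = R k ^ 2 * (F.q ((R k)⁻¹ • w k) ((R k)⁻¹ • w k) +
      (R k)⁻¹ * F.l ((R k)⁻¹ • w k) + (R k)⁻¹ ^ 2 * F.c) := by
    simp only [map_smul, LinearMap.smul_apply, smul_eq_mul]
    field_simp
  have h5 : 0 ≤ F.q (w k) (w k) + F.l (w k) + F.c := by
    rw [Cubic.ev] at h2
    linarith
  rw [e1] at h5
  exact nonneg_of_mul_nonneg_right h5 (by positivity)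

end Coord

end Pool.Agent.Helper91_PrimePoly
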