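import Pool.Agent.Helper91_PrimePoly.Ray

/-!
# No cubic polynomial is prime-representing

Integer polynomials of total degree at most 3 that are unbounded above on `ℕ^n` take composite
positive values.
-/

set_option autoImplicit false
set_option linter.unusedSectionVars false

namespace Pool.Agent.Helper91_PrimePoly

open Filter Topology

section Poly

variable {ι : Type} [Fintype ι] [DecidableEq ι]

/-- functions given by cubic polynomial functions -/
def IsCub (g : (ι → ℝ) → ℝ) : Prop := ∃ F : Cubic (ι → ℝ), ∀ x, F.ev x = g x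

theorem IsCub.add {g g' : (ι → ℝ) → ℝ} (h : IsCub g) (h' : IsCub g') :
    IsCub fun x => g x + g' x := by
  obtain ⟨F, hF⟩ := h
  obtain ⟨G, hG⟩ := h'
  refine ⟨⟨F.T + G.T, F.q + G.q, F.l + G.l, F.c + G.c, fun x y z => ?_, fun x y z => ?_,
    fun x y => ?_⟩, fun x => ?_⟩
  · simp only [LinearMap.add_apply]
    rw [F.T_comm, G.T_comm]
  · simp only [LinearMap.add_apply]
    rw [F.T_comm', G.T_comm']
  · simp only [LinearMap.add_apply]
    rw [F.q_comm, G.q_comm]
  · change _ = g x + g' x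
    rw [← hF, ← hG]
    simp only [Cubic.ev, LinearMap.add_apply]
    ring

theorem IsCub.const_mul {g : (ι → ℝ) → ℝ} (h : IsCub g) (r : ℝ) : IsCub fun x => r * g x := by
  obtain ⟨F, hF⟩ := h
  refine ⟨⟨r • F.T, r • F.q, r • F.l, r * F.c, fun x y z => ?_, fun x y z => ?_,
    fun x y => ?_⟩, fun x => ?_⟩
  · simp only [LinearMap.smul_apply]
    rw [F.T_comm]
  · simp only [LinearMap.smul_apply]
    rw [F.T_comm']
  · simp only [LinearMap.smul_apply]
    rw [F.q_comm]
  · change _ = r * g x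
    rw [← hF]
    simp only [Cubic.ev, LinearMap.smul_apply, smul_eq_mul]
    ring

theorem isCub_const (r : ℝ) : IsCub fun _ : ι → ℝ => r := by
  refine ⟨⟨0, 0, 0, r, fun x y z => ?_, fun x y z => ?_, fun x y => ?_⟩, fun x => ?_⟩ <;>
    simp [Cubic.ev]

theorem isCub_one (a : (ι → ℝ) →ₗ[ℝ] ℝ) : IsCub fun x : ι → ℝ => a x := by
  refine ⟨⟨0, 0, a, 0, fun x y z => ?_, fun x y z => ?_, fun x y => ?_⟩, fun x => ?_⟩ <;>
    simp [Cubic.ev]

theorem isCub_two (a b : (ι → ℝ) →ₗ[ℝ] ℝ) : IsCub fun x : ι → ℝ => a x * b x := by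
  refine ⟨⟨0, (1 / 2 : ℝ) • (a.smulRight b + b.smulRight a), 0, 0, fun x y z => ?_,
    fun x y z => ?_, fun x y => ?_⟩, fun x => ?_⟩
  · simp
  · simp
  · simp
    ring
  · simp [Cubic.ev]
    ring

theorem isCub_three (a b c : (ι → ℝ) →ₗ[ℝ] ℝ) : IsCub fun x : ι → ℝ => a x * b x * c x := by
  refine ⟨⟨(1 / 6 : ℝ) • (a.smulRight (b.smulRight c) + a.smulRight (c.smulRight b) +
    b.smulRight (a.smulRight c) + b.smulRight (c.smulRight a) + c.smulRight (a.smulRight b) +
    c.smulRight (b.smulRight a)), 0, 0, 0, fun x y z => ?_,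
    fun x y z => ?_, fun x y => ?_⟩, fun x => ?_⟩
  · simp
    ring
  · simp
    ring
  · simp
  · simp [Cubic.ev]
    ring

theorem isCub_sum {κ : Type} (s : Finset κ) (g : κ → (ι → ℝ) → ℝ) (h : ∀ k ∈ s, IsCub (g k)) :
    IsCub fun x => ∑ k ∈ s, g k x := by
  classical
  induction s using Finset.induction_on with
  | empty => simpa using isCub_const 0
  | insert a s ha ih =>
    simp only [Finset.sum_insert ha]
    exact (h a (Finset.mem_insert_self a s)).add (ih fun k hk => h k (Finset.mem_insert_of_mem hk))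

/-- monomials of degree at most 3 -/
theorem isCub_monomial (s : ι →₀ ℕ) (hs : (s.sum fun _ e => e) ≤ 3) :
    IsCub fun x : ι → ℝ => ∏ i, x i ^ s i := by
  set m := Finsupp.toMultiset s with hm
  have hcard : m.card ≤ 3 := by
    rw [hm, Finsupp.card_toMultiset]
    exact hs
  have hprod : ∀ x : ι → ℝ, ∏ i, x i ^ s i = (m.map x).prod := by
    intro x
    rw [Finset.prod_multiset_map_count]
    symm
    have h1 : ∀ i ∈ m.toFinset, x i ^ Multiset.count i m = x i ^ s i := by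
      intro i _
      rw [hm, Finsupp.count_toMultiset]
    rw [Finset.prod_congr rfl h1]
    refine Finset.prod_subset (Finset.subset_univ _) fun i _ hi => ?_
    have : s i = 0 := by
      rw [← Finsupp.count_toMultiset s i, ← hm]
      rw [Multiset.mem_toFinset] at hi
      exact Multiset.count_eq_zero.2 hi
    rw [this, pow_zero]
  have hfun : (fun x : ι → ℝ => ∏ i, x i ^ s i) = fun x => (m.map x).prod := funext hprod
  rw [hfun]
  have hc : m.card = 0 ∨ m.card = 1 ∨ m.card = 2 ∨ m.card = 3 := by omega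
  rcases hc with h | h | h | h
  · rw [Multiset.card_eq_zero] at h
    rw [h]
    simpa using isCub_const 1
  · obtain ⟨a, h⟩ := Multiset.card_eq_one.1 h
    rw [h]
    simpa using isCub_one (LinearMap.proj a)
  · obtain ⟨a, b, h⟩ := Multiset.card_eq_two.1 h
    rw [h]
    simpa using isCub_two (LinearMap.proj a) (LinearMap.proj b)
  · obtain ⟨a, b, c, h⟩ := Multiset.card_eq_three.1 h
    rw [h]
    simpa [mul_assoc] using isCub_three (LinearMap.proj a) (LinearMap.proj b) (LinearMap.proj c)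

/-- the real function of an integer polynomial of degree at most 3 -/
theorem exists_cubic (f : MvPolynomial ι ℤ) (hf : f.totalDegree ≤ 3) :
    ∃ F : Cubic (ι → ℝ), ∀ x : ι → ℕ,
      F.ev (cst x) = ((MvPolynomial.eval (fun i => (x i : ℤ)) f : ℤ) : ℝ) := by
  obtain ⟨F, hF⟩ := isCub_sum f.support
    (fun (s : ι →₀ ℕ) (x : ι → ℝ) => ((MvPolynomial.coeff s f : ℤ) : ℝ) * ∏ i, x i ^ s i)
    fun s hs => (isCub_monomial s ((MvPolynomial.le_totalDegree hs).trans hf)).const_mul _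
  refine ⟨F, fun x => ?_⟩
  rw [hF, MvPolynomial.eval_eq']
  push_cast
  rfl

/-! ### Robust rays -/

theorem grad_nonpos' {F : Cubic (ι → ℝ)} (h : ∀ y : ι → ℝ, (∀ i, 0 ≤ y i) → F.T y y y ≤ 0)
    (w z : ι → ℝ) (hw : ∀ i, 0 ≤ w i) (hz : ∀ i, 0 ≤ z i) (hT : F.T w w w = 0) :
    F.T w w z ≤ 0 := by
  have h1 : 3 * F.T w w z ≤ 0 := by
    refine first_order _ (3 * F.T w z z) (F.T z z z) fun t ht0 ht1 => ?_
    have h2 := h (w + t • z) (fun i => by
      have := hw i
      have := hz i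
      simp only [Pi.add_apply, Pi.smul_apply, smul_eq_mul]
      positivity)
    rw [T_add_cube] at h2
    simp only [map_smul, LinearMap.smul_apply, smul_eq_mul, hT] at h2
    linarith
  linarith

/-- at a boundary zero of the cubic part, the gradient vanishes on the support -/
theorem grad_supp {F : Cubic (ι → ℝ)} (h : ∀ y : ι → ℝ, (∀ i, 0 ≤ y i) → F.T y y y ≤ 0)
    (y η : ι → ℝ) (hy : ∀ i, 0 ≤ y i) (hT : F.T y y y = 0) (hη : ∀ i, y i = 0 → η i = 0) :
    F.T y y η = 0 := by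
  set e : ι → ι → ℝ := fun i a => if i = a then 1 else 0 with he
  have he0 : ∀ i a, 0 ≤ e i a := by
    intro i a
    simp only [he]
    split_ifs <;> norm_num
  have hexp : ∀ z, F.T y y z = ∑ i, z i * F.T y y (e i) := by
    intro z
    rw [LinearMap.pi_apply_eq_sum_univ (F.T y y) z]
    simp only [smul_eq_mul, he]
  have hnp : ∀ i, F.T y y (e i) ≤ 0 := fun i => grad_nonpos' h y (e i) hy (he0 i) hT
  have h1 : ∀ j ∈ Finset.univ, y j * F.T y y (e j) ≤ 0 := fun j _ =>
    mul_nonpos_of_nonneg_of_nonpos (hy j) (hnp j)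
  have h2 := (Finset.sum_eq_zero_iff_of_nonpos h1).1 (by rw [← hexp, hT])
  rw [hexp]
  refine Finset.sum_eq_zero fun i hi => ?_
  rcases mul_eq_zero.1 (h2 i hi) with h3 | h3
  · rw [hη i h3, zero_mul]
  · rw [h3, mul_zero]

/-- robust rays: the function tends to infinity along the ray, uniformly for small perturbations
supported on the support of the direction -/
def Robust (F : Cubic (ι → ℝ)) (x y : ι → ℝ) : Prop :=
  ∃ ε : ℝ, 0 < ε ∧ ∀ M : ℝ, ∃ R₀ : ℝ, ∀ R : ℝ, R₀ ≤ R → ∀ η : ι → ℝ, ‖η‖ ≤ ε →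
    (∀ i, y i = 0 → η i = 0) → M ≤ F.ev (x + R • y + η)

/-- coefficient of the linear term along a ray -/
def c1 (F : Cubic (ι → ℝ)) (x y : ι → ℝ) : ℝ := 3 * F.T x x y + 2 * F.q x y + F.l y

/-- coefficient of the quadratic term along a ray -/
def c2 (F : Cubic (ι → ℝ)) (x y : ι → ℝ) : ℝ := 3 * F.T x y y + F.q y y

theorem c1_continuous (F : Cubic (ι → ℝ)) (y : ι → ℝ) : Continuous fun x => c1 F x y := by
  rw [continuous_iff_continuousAt]
  intro a
  unfold c1
  exact (((T_tendsto F tendsto_id tendsto_id tendsto_const_nhds).const_mul 3).add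
    ((q_tendsto F tendsto_id tendsto_const_nhds).const_mul 2)).add tendsto_const_nhds

theorem c2_continuous (F : Cubic (ι → ℝ)) (y : ι → ℝ) : Continuous fun x => c2 F x y := by
  rw [continuous_iff_continuousAt]
  intro a
  unfold c2
  exact ((T_tendsto F tendsto_id tendsto_const_nhds tendsto_const_nhds).const_mul 3).add
    tendsto_const_nhds

theorem ev_ray' (F : Cubic (ι → ℝ)) (x y η : ι → ℝ) (R : ℝ) :
    F.ev (x + R • y + η) = F.ev (x + η) + R * c1 F (x + η) y + R ^ 2 * c2 F (x + η) y +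
      R ^ 3 * F.T y y y := by
  have : x + R • y + η = (x + η) + R • y := by abel
  rw [this, F.ev_ray, c1, c2]

theorem bound_ball (g : (ι → ℝ) → ℝ) (hg : Continuous g) (x : ι → ℝ) :
    ∃ K : ℝ, 0 ≤ K ∧ ∀ η : ι → ℝ, ‖η‖ ≤ 1 → |g (x + η)| ≤ K := by
  obtain ⟨K, hK⟩ := (isCompact_closedBall (0 : ι → ℝ) 1).exists_bound_of_continuousOn
    (f := fun η => g (x + η)) (hg.comp (continuous_const.add continuous_id)).continuousOn
  refine ⟨|K|, abs_nonneg K, fun η hη => ?_⟩
  have := hK η (by simpa using hη)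
  rw [Real.norm_eq_abs] at this
  exact this.trans (le_abs_self K)

theorem exists_robust {F : Cubic (ι → ℝ)} (h : ¬ RayBdd F) :
    ∃ (x : ι → ℕ) (y : ι → ℝ), (∀ i, 0 ≤ y i) ∧ Robust F (cst x) y := by
  by_cases hA : ∃ y : ι → ℝ, (∀ i, 0 ≤ y i) ∧ 0 < F.T y y y
  · -- the cubic part is positive somewhere
    obtain ⟨y, hy, hT⟩ := hA
    refine ⟨0, y, hy, 1, one_pos, fun M => ?_⟩
    obtain ⟨K0, hK0, hK0'⟩ := bound_ball F.ev (ev_continuous F) (cst (0 : ι → ℕ))
    obtain ⟨K1, hK1, hK1'⟩ := bound_ball _ (c1_continuous F y) (cst (0 : ι → ℕ))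
    obtain ⟨K2, hK2, hK2'⟩ := bound_ball _ (c2_continuous F y) (cst (0 : ι → ℕ))
    refine ⟨max 1 ((K0 + K1 + K2 + |M|) / F.T y y y), fun R hR η hη _ => ?_⟩
    have hR1 : 1 ≤ R := (le_max_left _ _).trans hR
    have hR2 : K0 + K1 + K2 + |M| ≤ R * F.T y y y := by
      have := (le_max_right _ _).trans hR
      rwa [div_le_iff₀ hT] at this
    rw [ev_ray']
    have b0 := neg_abs_le (F.ev (cst (0 : ι → ℕ) + η))
    have b1 := neg_abs_le (c1 F (cst (0 : ι → ℕ) + η) y)
    have b2 := neg_abs_le (c2 F (cst (0 : ι → ℕ) + η) y)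
    have a0 := hK0' η hη
    have a1 := hK1' η hη
    have a2 := hK2' η hη
    have hM := le_abs_self M
    have nM := abs_nonneg M
    have hRR : 1 ≤ R ^ 2 := by nlinarith
    have hRR' : R ≤ R ^ 2 := by nlinarith
    have t1 : -(R ^ 2 * K1) ≤ R * c1 F (cst (0 : ι → ℕ) + η) y := by
      have : -(R * K1) ≤ R * c1 F (cst (0 : ι → ℕ) + η) y := by nlinarith
      nlinarith
    have t2 : -(R ^ 2 * K2) ≤ R ^ 2 * c2 F (cst (0 : ι → ℕ) + η) y := by nlinarith
    have t0 : -(R ^ 2 * K0) ≤ F.ev (cst (0 : ι → ℕ) + η) := by nlinarith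
    have t3 : R ^ 2 * (K0 + K1 + K2 + |M|) ≤ R ^ 3 * F.T y y y := by
      have : R ^ 3 * F.T y y y = R ^ 2 * (R * F.T y y y) := by ring
      rw [this]
      exact mul_le_mul_of_nonneg_left hR2 (sq_nonneg R)
    have t4 : |M| ≤ R ^ 2 * |M| := by nlinarith
    nlinarith
  · push Not at hA
    unfold RayBdd at h
    push Not at h
    obtain ⟨x, y, hy, hunb⟩ := h
    have hunb' : ∀ M : ℝ, ∃ R : ℝ, 0 ≤ R ∧ M < F.ev (cst x + R • y) := hunb
    have hTle := hA y hy
    have hc1c2 : ∀ R : ℝ, F.ev (cst x + R • y) = F.ev (cst x) + R * c1 F (cst x) y +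
        R ^ 2 * c2 F (cst x) y + R ^ 3 * F.T y y y := fun R => F.ev_ray _ _ _
    -- the cubic coefficient vanishes
    have key : ∀ a b c d : ℝ, (a < 0 ∨ (a = 0 ∧ b < 0) ∨ (a = 0 ∧ b = 0 ∧ c ≤ 0)) →
        ∃ M : ℝ, ∀ R : ℝ, 0 ≤ R → d + R * c + R ^ 2 * b + R ^ 3 * a ≤ M := by
      intro a b c d habc
      have hc := le_abs_self c
      have hb := le_abs_self b
      have nb := abs_nonneg b
      have nc := abs_nonneg c
      rcases habc with ha | ⟨ha, hb0⟩ | ⟨ha, hb0, hc0⟩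
      · set K := (|b| + |c|) / (-a) + 1 with hK
        have hK0 : 0 ≤ (|b| + |c|) / (-a) := div_nonneg (by positivity) (by linarith)
        refine ⟨d + K * |c| + K ^ 2 * |b|, fun R hR => ?_⟩
        rcases le_total R K with h1 | h1
        · have e1 : R * c ≤ K * |c| := by nlinarith
          have e2 : R ^ 2 * b ≤ K ^ 2 * |b| := by
            have : R ^ 2 ≤ K ^ 2 := by nlinarith
            nlinarith [sq_nonneg R]
          have e3 : R ^ 3 * a ≤ 0 := mul_nonpos_of_nonneg_of_nonpos (by positivity) ha.le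
          linarith
        · have hR1 : 1 ≤ R := by linarith
          have e0 : |b| + |c| ≤ R * (-a) := by
            have : (|b| + |c|) / (-a) ≤ R := by linarith
            rwa [div_le_iff₀ (by linarith)] at this
          have e1 : R * c ≤ R ^ 2 * |c| := by
            have q1 : R * c ≤ R * |c| := mul_le_mul_of_nonneg_left hc hR
            have q2 : R * |c| ≤ R ^ 2 * |c| := mul_le_mul_of_nonneg_right (by nlinarith) nc
            linarith
          have e2 : R ^ 2 * b ≤ R ^ 2 * |b| := by nlinarith [sq_nonneg R]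
          have e3 : R ^ 2 * (|b| + |c|) ≤ R ^ 2 * (R * (-a)) :=
            mul_le_mul_of_nonneg_left e0 (sq_nonneg R)
          have e4 : 0 ≤ K * |c| + K ^ 2 * |b| := by positivity
          nlinarith
      · set K := |c| / (-b) with hK
        have hK0 : 0 ≤ |c| / (-b) := div_nonneg (by positivity) (by linarith)
        refine ⟨d + K * |c|, fun R hR => ?_⟩
        rw [ha]
        rcases le_total R K with h1 | h1
        · have e1 : R * c ≤ K * |c| := by nlinarith
          have e2 : R ^ 2 * b ≤ 0 := mul_nonpos_of_nonneg_of_nonpos (by positivity) hb0.le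
          linarith
        · have e0 : |c| ≤ R * (-b) := by
            rwa [hK, div_le_iff₀ (by linarith)] at h1
          have e1 : R * c ≤ R * |c| := by nlinarith
          have e3 : R * |c| ≤ R * (R * (-b)) := mul_le_mul_of_nonneg_left e0 hR
          have e4 : 0 ≤ K * |c| := by positivity
          nlinarith
      · refine ⟨d, fun R hR => ?_⟩
        rw [ha, hb0]
        have : R * c ≤ 0 := mul_nonpos_of_nonneg_of_nonpos hR hc0
        linarith
    have hno : ¬ (F.T y y y < 0 ∨ (F.T y y y = 0 ∧ c2 F (cst x) y < 0) ∨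
        (F.T y y y = 0 ∧ c2 F (cst x) y = 0 ∧ c1 F (cst x) y ≤ 0)) := by
      intro hcon
      obtain ⟨M, hM⟩ := key _ _ _ (F.ev (cst x)) hcon
      obtain ⟨R, hR, hR'⟩ := hunb' M
      rw [hc1c2] at hR'
      have := hM R hR
      linarith
    push Not at hno
    obtain ⟨hn1, hn2, hn3⟩ := hno
    have hT0 : F.T y y y = 0 := le_antisymm hTle hn1
    have hc2 := hn2 hT0
    refine ⟨x, y, hy, ?_⟩
    -- the quadratic coefficient does not change
    have hc2η : ∀ η : ι → ℝ, (∀ i, y i = 0 → η i = 0) → c2 F (cst x + η) y = c2 F (cst x) y := by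
      intro η hη
      have h1 := grad_supp hA y η hy hT0 hη
      unfold c2
      rw [map_add, LinearMap.add_apply, LinearMap.add_apply, F.T_rot η y y, h1]
      ring
    obtain ⟨K0, hK0, hK0'⟩ := bound_ball F.ev (ev_continuous F) (cst x)
    obtain ⟨K1, hK1, hK1'⟩ := bound_ball _ (c1_continuous F y) (cst x)
    rcases lt_or_eq_of_le hc2 with hpos | hzero
    · -- quadratic growth
      refine ⟨1, one_pos, fun M => ⟨max 1 ((K0 + K1 + |M|) / c2 F (cst x) y),
        fun R hR η hη hsupp => ?_⟩⟩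
      have hR1 : 1 ≤ R := (le_max_left _ _).trans hR
      have hR2 : K0 + K1 + |M| ≤ R * c2 F (cst x) y := by
        have := (le_max_right _ _).trans hR
        rwa [div_le_iff₀ hpos] at this
      rw [ev_ray', hc2η η hsupp, hT0]
      have b0 := neg_abs_le (F.ev (cst x + η))
      have b1 := neg_abs_le (c1 F (cst x + η) y)
      have a0 := hK0' η hη
      have a1 := hK1' η hη
      have hM := le_abs_self M
      have nM := abs_nonneg M
      have t1 : -(R * K1) ≤ R * c1 F (cst x + η) y := by nlinarith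
      have t0 : -(R * K0) ≤ F.ev (cst x + η) := by nlinarith
      have t3 : R * (K0 + K1 + |M|) ≤ R ^ 2 * c2 F (cst x) y := by
        have : R ^ 2 * c2 F (cst x) y = R * (R * c2 F (cst x) y) := by ring
        rw [this]
        exact mul_le_mul_of_nonneg_left hR2 (by linarith)
      have t4 : |M| ≤ R * |M| := by nlinarith
      nlinarith
    · -- linear growth
      have hc1 : 0 < c1 F (cst x) y := hn3 hT0 hzero.symm
      have hcont : Tendsto (fun η : ι → ℝ => c1 F (cst x + η) y) (𝓝 0) (𝓝 (c1 F (cst x) y)) := by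
        have h0 : Continuous fun η : ι → ℝ => c1 F (cst x + η) y :=
          (c1_continuous F y).comp (continuous_const.add continuous_id)
        have h1 := h0.tendsto 0
        rwa [add_zero] at h1
      have hev := hcont.eventually (lt_mem_nhds (show c1 F (cst x) y / 2 < c1 F (cst x) y by
        linarith))
      obtain ⟨δ, hδ0, hδ⟩ := Metric.eventually_nhds_iff.1 hev
      refine ⟨min (δ / 2) 1, lt_min (by positivity) one_pos, fun M =>
        ⟨max 1 ((K0 + |M|) / (c1 F (cst x) y / 2)), fun R hR η hη hsupp => ?_⟩⟩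
      have hR1 : 1 ≤ R := (le_max_left _ _).trans hR
      have hR2 : K0 + |M| ≤ R * (c1 F (cst x) y / 2) := by
        have := (le_max_right _ _).trans hR
        rwa [div_le_iff₀ (by positivity)] at this
      have hη1 : ‖η‖ ≤ 1 := hη.trans (min_le_right _ _)
      have hη2 : ‖η‖ ≤ δ / 2 := hη.trans (min_le_left _ _)
      have h1 : c1 F (cst x) y / 2 < c1 F (cst x + η) y := hδ (by
        rw [dist_zero_right]
        linarith)
      rw [ev_ray', hc2η η hsupp, hT0, ← hzero]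
      have b0 := neg_abs_le (F.ev (cst x + η))
      have a0 := hK0' η hη1
      have hM := le_abs_self M
      have t1 : R * (c1 F (cst x) y / 2) ≤ R * c1 F (cst x + η) y :=
        mul_le_mul_of_nonneg_left h1.le (by linarith)
      nlinarith

/-! ### Dirichlet approximation -/

theorem dirichlet (y : ι → ℝ) (ε : ℝ) (hε : 0 < ε) (N : ℕ) :
    ∃ q : ℕ, N ≤ q ∧ ∃ a : ι → ℤ, (∀ i, |(a i : ℝ) - q * y i| ≤ ε) ∧ ∀ i, y i = 0 → a i = 0 := by
  set g : ℕ → ι → ℝ := fun k i => Int.fract ((k : ℝ) * (N + 1) * y i) with hg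
  have hball : ∀ k, g k ∈ Metric.closedBall (0 : ι → ℝ) 1 := by
    intro k
    rw [mem_closedBall_zero_iff, pi_norm_le_iff_of_nonneg zero_le_one]
    intro i
    rw [Real.norm_eq_abs, abs_of_nonneg (Int.fract_nonneg _)]
    exact (Int.fract_lt_one _).le
  obtain ⟨a, -, φ, hφ, hlim⟩ := (isCompact_closedBall (0 : ι → ℝ) 1).tendsto_subseq hball
  obtain ⟨n₀, hn₀⟩ := Metric.tendsto_atTop.1 hlim (ε / 2) (by positivity)
  have h1 := hn₀ n₀ le_rfl
  have h2 := hn₀ (n₀ + 1) (Nat.le_succ _)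
  have hlt : φ n₀ < φ (n₀ + 1) := hφ (Nat.lt_succ_self _)
  have hdist : dist (g (φ n₀)) (g (φ (n₀ + 1))) < ε := by
    have := dist_triangle_right (g (φ n₀)) (g (φ (n₀ + 1))) a
    simp only [Function.comp_apply] at h1 h2
    linarith
  refine ⟨(φ (n₀ + 1) - φ n₀) * (N + 1), ?_,
    fun i => ⌊(φ (n₀ + 1) : ℝ) * (N + 1) * y i⌋ - ⌊(φ n₀ : ℝ) * (N + 1) * y i⌋, ?_, ?_⟩
  · have : 1 ≤ φ (n₀ + 1) - φ n₀ := by omega
    nlinarith
  · intro i
    have h3 := dist_le_pi_dist (g (φ n₀)) (g (φ (n₀ + 1))) i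
    rw [Real.dist_eq] at h3
    have h4 : (((⌊(φ (n₀ + 1) : ℝ) * (N + 1) * y i⌋ - ⌊(φ n₀ : ℝ) * (N + 1) * y i⌋ : ℤ)) : ℝ) -
        (((φ (n₀ + 1) - φ n₀) * (N + 1) : ℕ) : ℝ) * y i = g (φ n₀) i - g (φ (n₀ + 1)) i := by
      simp only [hg, Int.fract]
      push_cast [Nat.cast_sub hlt.le]
      ring
    rw [h4]
    linarith
  · intro i hi
    simp [hi]

end Poly

/-- **No polynomial of total degree at most 3 is prime-representing.** -/
theorem four_le_totalDegree (n : ℕ) (f : MvPolynomial (Fin n) ℤ)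
    (hf : ∀ p : ℕ, 0 < p →
      ((∃ x : Fin n → ℕ, MvPolynomial.eval (fun i => (x i : ℤ)) f = (p : ℤ)) ↔ p.Prime)) :
    4 ≤ f.totalDegree := by
  by_contra hdeg
  have hdeg3 : f.totalDegree ≤ 3 := by omega
  obtain ⟨F, hF⟩ := exists_cubic f hdeg3
  -- `F` is unbounded on natural points
  have hnb : ¬ RayBdd F := by
    intro hb
    obtain ⟨M, hM⟩ := bddAbove_of_rayBdd (Fintype.card (Fin n)) (Fin n) rfl F hb
    obtain ⟨N, hN⟩ := exists_nat_gt M
    obtain ⟨p, hp, hpp⟩ := Nat.exists_infinite_primes N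
    obtain ⟨x, hx⟩ := (hf p hpp.pos).2 hpp
    have h1 := hM x
    rw [hF, hx] at h1
    have h2 : (N : ℝ) ≤ p := Nat.cast_le.2 hp
    have h3 : (((p : ℕ) : ℤ) : ℝ) = (p : ℝ) := by norm_cast
    rw [h3] at h1
    linarith
  obtain ⟨x, y, hy, ε, hε, hrob⟩ := exists_robust hnb
  -- a threshold beyond which approximations are nonnegative
  obtain ⟨Ny, hNy⟩ : ∃ Ny : ℕ, ∀ q : ℕ, Ny ≤ q → ∀ i, y i ≠ 0 → ε ≤ q * y i := by
    have h1 : ∀ i, ∀ᶠ q : ℕ in atTop, y i ≠ 0 → ε ≤ q * y i := by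
      intro i
      by_cases hi : y i = 0
      · exact Eventually.of_forall fun q hq => absurd hi hq
      · have hpos : 0 < y i := lt_of_le_of_ne (hy i) (Ne.symm hi)
        filter_upwards [tendsto_natCast_atTop_atTop.eventually_ge_atTop (ε / y i)] with q hq _
        rwa [div_le_iff₀ hpos] at hq
    exact eventually_atTop.1 (eventually_all.2 h1)
  -- integer points near the ray
  have hpts : ∀ (δ : ℝ), 0 < δ → δ ≤ ε → ∀ N : ℕ, ∃ q : ℕ, N ≤ q ∧ ∃ a : Fin n → ℕ,
      (∀ i, |(a i : ℝ) - q * y i| ≤ δ) ∧ ∀ i, y i = 0 → a i = 0 := by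
    intro δ hδ hδε N
    obtain ⟨q, hq, a, ha1, ha2⟩ := dirichlet y δ hδ (max N Ny)
    refine ⟨q, (le_max_left _ _).trans hq, fun i => (a i).toNat, fun i => ?_, fun i hi => ?_⟩
    · have hnn : 0 ≤ a i := by
        by_cases hi : y i = 0
        · rw [ha2 i hi]
        · have h1 := hNy q ((le_max_right _ _).trans hq) i hi
          have h2 := ha1 i
          rw [abs_le] at h2
          have h3 : (0 : ℝ) ≤ a i := by linarith [h2.1]
          exact_mod_cast h3
      have h4 : (((a i).toNat : ℕ) : ℝ) = (a i : ℝ) := by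
        have : (((a i).toNat : ℕ) : ℤ) = a i := Int.toNat_of_nonneg hnn
        exact_mod_cast this
      rw [h4]
      exact ha1 i
    · change (a i).toNat = 0
      rw [ha2 i hi]
      rfl
  -- first point
  obtain ⟨R₁, hR₁⟩ := hrob 2
  obtain ⟨N₁, hN₁⟩ := exists_nat_ge R₁
  obtain ⟨q₁, hq₁, a₁, ha₁, ha₁'⟩ := hpts (ε / 2) (by positivity) (by linarith) N₁
  set η₁ : Fin n → ℝ := fun i => (a₁ i : ℝ) - q₁ * y i with hη₁
  have hη₁n : ‖η₁‖ ≤ ε / 2 := by
    rw [pi_norm_le_iff_of_nonneg (by positivity)]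
    exact ha₁
  have hη₁s : ∀ i, y i = 0 → η₁ i = 0 := by
    intro i hi
    simp [hη₁, hi, ha₁' i hi]
  have hb : cst (x + a₁) = cst x + (q₁ : ℝ) • y + η₁ := by
    funext i
    simp [cst, hη₁]
  have hval : (2 : ℝ) ≤ F.ev (cst (x + a₁)) := by
    rw [hb]
    have h1 : (N₁ : ℝ) ≤ q₁ := Nat.cast_le.2 hq₁
    exact hR₁ q₁ (by linarith) η₁ (by linarith) hη₁s
  rw [hF] at hval
  have hval2 : (2 : ℤ) ≤ MvPolynomial.eval (fun i => (((x + a₁) i : ℕ) : ℤ)) f := by
    exact_mod_cast hval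
  obtain ⟨p, hp⟩ := Int.eq_ofNat_of_zero_le (show 0 ≤ MvPolynomial.eval
    (fun i => (((x + a₁) i : ℕ) : ℤ)) f by linarith)
  have hp2 : 2 ≤ p := by
    rw [hp] at hval2
    exact_mod_cast hval2
  have hpp : p.Prime := (hf p (by omega)).1 ⟨x + a₁, hp⟩
  have hp0 : (0 : ℝ) < p := by
    have : 0 < p := by omega
    exact_mod_cast this
  -- second point
  obtain ⟨R₂, hR₂⟩ := hrob (p + 1)
  obtain ⟨N₂, hN₂⟩ := exists_nat_ge R₂
  obtain ⟨q₂, hq₂, a₂, ha₂, ha₂'⟩ := hpts (ε / (2 * p)) (by positivity) (by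
    rw [div_le_iff₀ (by positivity)]
    have : (2 : ℝ) ≤ p := by exact_mod_cast hp2
    nlinarith) N₂
  set η₂ : Fin n → ℝ := fun i => (a₂ i : ℝ) - q₂ * y i with hη₂
  have hη₂n : ‖η₂‖ ≤ ε / (2 * p) := by
    rw [pi_norm_le_iff_of_nonneg (by positivity)]
    exact ha₂
  have hη₂s : ∀ i, y i = 0 → η₂ i = 0 := by
    intro i hi
    simp [hη₂, hi, ha₂' i hi]
  have hb2 : cst (x + a₁ + p • a₂) = cst x + ((q₁ : ℝ) + p * q₂) • y + (η₁ + (p : ℝ) • η₂) := by
    funext i
    simp [cst, hη₁, hη₂]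
    ring
  have hval' : ((p : ℝ) + 1) ≤ F.ev (cst (x + a₁ + p • a₂)) := by
    rw [hb2]
    have h1 : (N₂ : ℝ) ≤ q₂ := Nat.cast_le.2 hq₂
    have h2 : (0 : ℝ) ≤ q₁ := Nat.cast_nonneg _
    have h3 : (0 : ℝ) ≤ q₂ := Nat.cast_nonneg _
    have h4 : (1 : ℝ) ≤ p := by
      have : 1 ≤ p := by omega
      exact_mod_cast this
    refine hR₂ _ (by nlinarith) _ ?_ ?_
    · refine (norm_add_le _ _).trans ?_
      rw [norm_smul, Real.norm_eq_abs, abs_of_pos hp0]
      have h5 : (p : ℝ) * ‖η₂‖ ≤ p * (ε / (2 * p)) := mul_le_mul_of_nonneg_left hη₂n hp0.le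
      have h6 : (p : ℝ) * (ε / (2 * p)) = ε / 2 := by
        field_simp
      linarith
    · intro i hi
      simp [hη₁s i hi, hη₂s i hi]
  rw [hF] at hval'
  have hval2' : ((p : ℤ) + 1) ≤ MvPolynomial.eval (fun i => (((x + a₁ + p • a₂) i : ℕ) : ℤ)) f := by
    exact_mod_cast hval'
  obtain ⟨P, hP⟩ := Int.eq_ofNat_of_zero_le (show 0 ≤ MvPolynomial.eval
    (fun i => (((x + a₁ + p • a₂) i : ℕ) : ℤ)) f by
      have : (0 : ℤ) ≤ p := Int.natCast_nonneg _
      linarith)
  have hPp : p + 1 ≤ P := by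
    rw [hP] at hval2'
    exact_mod_cast hval2'
  have hPP : P.Prime := (hf P (by omega)).1 ⟨x + a₁ + p • a₂, hP⟩
  -- congruence modulo `p`
  have hcong : ((MvPolynomial.eval (fun i => (((x + a₁ + p • a₂) i : ℕ) : ℤ)) f : ℤ) : ZMod p) =
      ((MvPolynomial.eval (fun i => (((x + a₁) i : ℕ) : ℤ)) f : ℤ) : ZMod p) := by
    have h1 : ∀ X : Fin n → ℕ, ((MvPolynomial.eval (fun i => ((X i : ℕ) : ℤ)) f : ℤ) : ZMod p) =
        MvPolynomial.eval₂ (Int.castRingHom (ZMod p)) (fun i => ((X i : ℕ) : ZMod p)) f := by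
      intro X
      have h2 := MvPolynomial.eval₂_comp_left (Int.castRingHom (ZMod p)) (RingHom.id ℤ)
        (fun i => ((X i : ℕ) : ℤ)) f
      rw [MvPolynomial.eval₂_id] at h2
      simp only [eq_intCast] at h2
      rw [h2]
      congr 1
      funext i
      simp
    rw [h1, h1]
    congr 1
    funext i
    simp
  rw [hP, hp] at hcong
  have hdvd : p ∣ P := by
    have h1 : ((P : ℕ) : ZMod p) = 0 := by
      have h2 : (((P : ℕ) : ℤ) : ZMod p) = (((p : ℕ) : ℤ) : ZMod p) := hcong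
      rw [Int.cast_natCast, Int.cast_natCast, ZMod.natCast_self] at h2
      exact h2
    exact (ZMod.natCast_eq_zero_iff P p).1 h1
  have := (Nat.prime_dvd_prime_iff_eq hpp hPP).1 hdvd
  omega

end Pool.Agent.Helper91_PrimePoly
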