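import Pool.Agent.Helper91_PrimePoly.Robust

/-!
# The quartic polynomial of a system

Given a finite system of linear equations and products over `ℕ` in a parameter `x` and unknowns
`w`, we build a polynomial of total degree at most 4 whose positive values on `ℕ` are exactly the
positive `x` for which the system is solvable.
-/

set_option autoImplicit false

namespace Pool.Agent.Helper91_PrimePoly

open Finset MvPolynomial

/-- the unknowns of the quartic: `v j`, `V j`, and the two further unknowns `D` and the slack -/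
abbrev Var (σ : Type) : Type := J σ ⊕ J σ ⊕ Bool

variable {σ : Type}

/-- the unknown `v j` -/
noncomputable def pv (j : J σ) : MvPolynomial (Var σ) ℤ := X (Sum.inl j)

/-- the unknown `V j` -/
noncomputable def pV (j : J σ) : MvPolynomial (Var σ) ℤ := X (Sum.inr (Sum.inl j))

/-- the unknown `D` -/
noncomputable def pD : MvPolynomial (Var σ) ℤ := X (Sum.inr (Sum.inr true))

/-- the slack -/
noncomputable def pS : MvPolynomial (Var σ) ℤ := X (Sum.inr (Sum.inr false))

/-- the embedding of the parameter and the unknowns of the system -/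
def emb : Option σ → Var σ
  | none => Sum.inl J.X
  | some i => Sum.inl (J.w i)

/-- linear equation for `t` -/
noncomputable def linT [Fintype σ] : MvPolynomial (Var σ) ℤ :=
  pv J.T - (1 + pv J.X + pv J.Q + ∑ i, pv (J.w i) + ∑ i, pv (J.u i))

/-- linear equation for `D` -/
noncomputable def linD : MvPolynomial (Var σ) ℤ :=
  pD - (8 * pv J.C + 2 * pv J.X + 1 + pS)

/-- the quartic polynomial -/
noncomputable def quartic [Fintype σ] [DecidableEq σ] {ι : Type} [Fintype ι]
    (prods : Finset (σ × σ × σ)) (lins : ι → MvPolynomial (Option σ) ℤ) :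
    MvPolynomial (Var σ) ℤ :=
  pv J.X - ∑ j, (pV j - pD * pv j) ^ 2 -
    ∑ p ∈ prodsJ prods, (pV p.1 * pV p.2.1 - pD * pV p.2.2) ^ 2 -
    pv J.X ^ 2 * (linT ^ 2 + linD ^ 2 + ∑ i, (rename emb (lins i)) ^ 2)

theorem deg_X {τ : Type} (i : τ) : (X i : MvPolynomial τ ℤ).totalDegree ≤ 1 := by
  rw [totalDegree_X]

theorem deg_sub {τ : Type} {f g : MvPolynomial τ ℤ} {n : ℕ} (hf : f.totalDegree ≤ n)
    (hg : g.totalDegree ≤ n) : (f - g).totalDegree ≤ n :=
  (totalDegree_sub f g).trans (max_le hf hg)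

theorem deg_add {τ : Type} {f g : MvPolynomial τ ℤ} {n : ℕ} (hf : f.totalDegree ≤ n)
    (hg : g.totalDegree ≤ n) : (f + g).totalDegree ≤ n :=
  (totalDegree_add f g).trans (max_le hf hg)

theorem deg_mul {τ : Type} {f g : MvPolynomial τ ℤ} {m n k : ℕ} (hf : f.totalDegree ≤ m)
    (hg : g.totalDegree ≤ n) (hk : m + n ≤ k) : (f * g).totalDegree ≤ k :=
  (totalDegree_mul f g).trans ((add_le_add hf hg).trans hk)

theorem deg_sq {τ : Type} {f : MvPolynomial τ ℤ} {m k : ℕ} (hf : f.totalDegree ≤ m)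
    (hk : 2 * m ≤ k) : (f ^ 2).totalDegree ≤ k :=
  (totalDegree_pow f 2).trans ((Nat.mul_le_mul_left 2 hf).trans hk)

theorem deg_sum {τ ι : Type} (s : Finset ι) (f : ι → MvPolynomial τ ℤ) {n : ℕ}
    (h : ∀ i ∈ s, (f i).totalDegree ≤ n) : (∑ i ∈ s, f i).totalDegree ≤ n :=
  totalDegree_finsetSum_le h

theorem deg_const {τ : Type} (c : ℤ) (n : ℕ) : (C c : MvPolynomial τ ℤ).totalDegree ≤ n := by
  rw [totalDegree_C]
  exact Nat.zero_le _

theorem deg_quartic [Fintype σ] [DecidableEq σ] {ι : Type} [Fintype ι]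
    (prods : Finset (σ × σ × σ)) (lins : ι → MvPolynomial (Option σ) ℤ)
    (hl : ∀ i, (lins i).totalDegree ≤ 1) : (quartic prods lins).totalDegree ≤ 4 := by
  have h1 : ((1 : MvPolynomial (Var σ) ℤ)).totalDegree ≤ 1 := by
    rw [totalDegree_one]
    exact Nat.zero_le _
  have h8 : ((8 : MvPolynomial (Var σ) ℤ)).totalDegree ≤ 0 := by
    have := deg_const (τ := Var σ) 8 0
    simpa using this
  have h2 : ((2 : MvPolynomial (Var σ) ℤ)).totalDegree ≤ 0 := by
    have := deg_const (τ := Var σ) 2 0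
    simpa using this
  have hT : (linT (σ := σ)).totalDegree ≤ 1 := by
    unfold linT
    refine deg_sub (deg_X _) (deg_add (deg_add (deg_add (deg_add h1 (deg_X _)) (deg_X _)) ?_) ?_)
    · exact deg_sum _ _ fun i _ => deg_X _
    · exact deg_sum _ _ fun i _ => deg_X _
  have hD : (linD (σ := σ)).totalDegree ≤ 1 := by
    unfold linD
    refine deg_sub (deg_X _) (deg_add (deg_add (deg_add ?_ ?_) h1) (deg_X _))
    · exact deg_mul h8 (deg_X _) le_rfl
    · exact deg_mul h2 (deg_X _) le_rfl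
  unfold quartic
  refine deg_sub (deg_sub (deg_sub ?_ ?_) ?_) ?_
  · exact (deg_X _).trans (by norm_num)
  · refine deg_sum _ _ fun j _ => deg_sq (m := 2) (deg_sub ?_ ?_) le_rfl
    · exact (deg_X _).trans (by norm_num)
    · exact deg_mul (deg_X _) (deg_X _) le_rfl
  · refine deg_sum _ _ fun j _ => deg_sq (m := 2) (deg_sub ?_ ?_) le_rfl
    · exact deg_mul (deg_X _) (deg_X _) le_rfl
    · exact deg_mul (deg_X _) (deg_X _) le_rfl
  · refine deg_mul (m := 2) (n := 2) (deg_sq (m := 1) (deg_X _) le_rfl) ?_ le_rfl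
    refine deg_add (deg_add (deg_sq (m := 1) hT le_rfl) (deg_sq (m := 1) hD le_rfl)) ?_
    refine deg_sum _ _ fun i _ => deg_sq (m := 1) ?_ le_rfl
    exact (totalDegree_rename_le _ _).trans (hl i)

/-- the value of the quartic at a point -/
theorem eval_quartic [Fintype σ] [DecidableEq σ] {ι : Type} [Fintype ι]
    (prods : Finset (σ × σ × σ)) (lins : ι → MvPolynomial (Option σ) ℤ) (y : Var σ → ℤ) :
    eval y (quartic prods lins) = y (Sum.inl J.X)
      - ∑ j, (y (Sum.inr (Sum.inl j)) - y (Sum.inr (Sum.inr true)) * y (Sum.inl j)) ^ 2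
      - ∑ p ∈ prodsJ prods, (y (Sum.inr (Sum.inl p.1)) * y (Sum.inr (Sum.inl p.2.1)) -
          y (Sum.inr (Sum.inr true)) * y (Sum.inr (Sum.inl p.2.2))) ^ 2
      - y (Sum.inl J.X) ^ 2 *
        ((y (Sum.inl J.T) - (1 + y (Sum.inl J.X) + y (Sum.inl J.Q) + ∑ i, y (Sum.inl (J.w i)) +
            ∑ i, y (Sum.inl (J.u i)))) ^ 2
          + (y (Sum.inr (Sum.inr true)) - (8 * y (Sum.inl J.C) + 2 * y (Sum.inl J.X) + 1 +
              y (Sum.inr (Sum.inr false)))) ^ 2
          + ∑ i, (eval (y ∘ emb) (lins i)) ^ 2) := by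
  simp [quartic, linT, linD, pv, pV, pD, pS, eval_rename]

/-- the quartic of a system represents the set of parameters for which the system is solvable -/
theorem quartic_spec [Fintype σ] [DecidableEq σ] {ι : Type} [Fintype ι]
    (prods : Finset (σ × σ × σ)) (lins : ι → MvPolynomial (Option σ) ℤ) (x : ℕ) (hx : 0 < x) :
    (∃ y : Var σ → ℕ, eval (fun i => (y i : ℤ)) (quartic prods lins) = (x : ℤ)) ↔
      ∃ w : σ → ℕ, (∀ i, eval (fun o : Option σ => (o.elim (x : ℤ) (fun s => (w s : ℤ)))) (lins i) = 0)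
        ∧ ∀ p ∈ prods, w p.1 * w p.2.1 = w p.2.2 := by
  constructor
  · rintro ⟨y, hy⟩
    rw [eval_quartic] at hy
    set v : J σ → ℤ := fun j => ((y (Sum.inl j) : ℕ) : ℤ) with hv
    set V : J σ → ℤ := fun j => ((y (Sum.inr (Sum.inl j)) : ℕ) : ℤ) with hV
    set D : ℤ := ((y (Sum.inr (Sum.inr true)) : ℕ) : ℤ) with hD
    set sl : ℤ := ((y (Sum.inr (Sum.inr false)) : ℕ) : ℤ) with hsl
    have hy' : v J.X - ∑ j, (V j - D * v j) ^ 2
        - ∑ p ∈ prodsJ prods, (V p.1 * V p.2.1 - D * V p.2.2) ^ 2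
        - v J.X ^ 2 * ((v J.T - (1 + v J.X + v J.Q + ∑ i, v (J.w i) + ∑ i, v (J.u i))) ^ 2
          + (D - (8 * v J.C + 2 * v J.X + 1 + sl)) ^ 2
          + ∑ i, (eval ((fun i => ((y i : ℕ) : ℤ)) ∘ emb) (lins i)) ^ 2) = (x : ℤ) := hy
    have hx' : (1 : ℤ) ≤ x := by exact_mod_cast hx
    have hv0 : ∀ j, 0 ≤ v j := fun j => Int.natCast_nonneg _
    have s1 : 0 ≤ ∑ j, (V j - D * v j) ^ 2 := Finset.sum_nonneg fun j _ => sq_nonneg _
    have s2 : 0 ≤ ∑ p ∈ prodsJ prods, (V p.1 * V p.2.1 - D * V p.2.2) ^ 2 :=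
      Finset.sum_nonneg fun j _ => sq_nonneg _
    have s3 : 0 ≤ ∑ i, (eval ((fun i => ((y i : ℕ) : ℤ)) ∘ emb) (lins i)) ^ 2 :=
      Finset.sum_nonneg fun j _ => sq_nonneg _
    set LT : ℤ := v J.T - (1 + v J.X + v J.Q + ∑ i, v (J.w i) + ∑ i, v (J.u i)) with hLT
    set LD : ℤ := D - (8 * v J.C + 2 * v J.X + 1 + sl) with hLD
    set S3 : ℤ := ∑ i, (eval ((fun i => ((y i : ℕ) : ℤ)) ∘ emb) (lins i)) ^ 2 with hS3
    have hX1 : 1 ≤ v J.X := by
      have h0 : 0 ≤ v J.X ^ 2 * (LT ^ 2 + LD ^ 2 + S3) :=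
        mul_nonneg (sq_nonneg _) (by positivity)
      linarith
    -- the linear part vanishes
    have hlin : LT ^ 2 + LD ^ 2 + S3 = 0 := by
      by_contra hne
      have h0 : 0 ≤ LT ^ 2 + LD ^ 2 + S3 := by positivity
      have h1 : 1 ≤ LT ^ 2 + LD ^ 2 + S3 := by
        rcases lt_or_eq_of_le h0 with h | h
        · linarith
        · exact absurd h.symm hne
      have h2 : v J.X ^ 2 ≤ v J.X ^ 2 * (LT ^ 2 + LD ^ 2 + S3) := by
        nlinarith [sq_nonneg (v J.X)]
      nlinarith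
    have hLT0 : LT = 0 := by
      have : LT ^ 2 = 0 := by
        have := sq_nonneg LT
        have := sq_nonneg LD
        linarith
      exact pow_eq_zero_iff (two_ne_zero) |>.1 this
    have hLD0 : LD = 0 := by
      have : LD ^ 2 = 0 := by
        have := sq_nonneg LT
        have := sq_nonneg LD
        linarith
      exact pow_eq_zero_iff (two_ne_zero) |>.1 this
    have hS30 : S3 = 0 := by
      have := sq_nonneg LT
      have := sq_nonneg LD
      linarith
    rw [hlin, mul_zero, sub_zero] at hy'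
    have hr : ∀ j, (V j - D * v j) ^ 2 ≤ v J.X - 1 := by
      intro j
      have := Finset.single_le_sum (f := fun j => (V j - D * v j) ^ 2)
        (fun j _ => sq_nonneg _) (mem_univ j)
      linarith
    have hs : ∀ p ∈ prodsJ prods, (V p.1 * V p.2.1 - D * V p.2.2) ^ 2 ≤ v J.X - 1 := by
      intro p hp
      have := Finset.single_le_sum (f := fun p : J σ × J σ × J σ =>
        (V p.1 * V p.2.1 - D * V p.2.2) ^ 2) (fun j _ => sq_nonneg _) hp
      linarith
    obtain ⟨hVD, hprod⟩ := robust prods v V D sl hv0 (Int.natCast_nonneg _) hX1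
      (by linarith) (by linarith) hr hs
    have hval : v J.X = x := by
      have e1 : ∑ j, (V j - D * v j) ^ 2 = 0 :=
        Finset.sum_eq_zero fun j _ => by rw [hVD j]; ring
      have e2 : ∑ p ∈ prodsJ prods, (V p.1 * V p.2.1 - D * V p.2.2) ^ 2 = 0 := by
        refine Finset.sum_eq_zero fun p hp => ?_
        rw [hVD, hVD, hVD, ← hprod p hp]
        ring
      rw [e1, e2] at hy'
      linarith
    refine ⟨fun s => y (Sum.inl (J.w s)), fun i => ?_, fun p hp => ?_⟩
    · have h1 : (eval ((fun i => ((y i : ℕ) : ℤ)) ∘ emb) (lins i)) ^ 2 = 0 :=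
        (Finset.sum_eq_zero_iff_of_nonneg (fun j _ => sq_nonneg _)).1 hS30 i (mem_univ i)
      have h2 := (pow_eq_zero_iff (two_ne_zero)).1 h1
      rw [← h2]
      congr 1
      congr 1
      funext o
      cases o with
      | none => exact hval.symm
      | some s => rfl
    · have hmem : ((J.w p.1, J.w p.2.1, J.w p.2.2) : J σ × J σ × J σ) ∈ prodsJ prods := by
        simp only [prodsJ, mem_union, mem_image]
        exact Or.inr ⟨p, hp, rfl⟩
      have h1 := hprod _ hmem
      simp only [hv] at h1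
      exact_mod_cast h1
  · rintro ⟨w, hw1, hw2⟩
    -- the exact solution
    let c0 : ℕ := x * (1 + x + x * x + ∑ i, w i + ∑ i, x * w i)
    let D : ℕ := 8 * c0 + 2 * x + 1
    let v : J σ → ℕ := fun j => match j with
      | J.X => x
      | J.Q => x * x
      | J.T => 1 + x + x * x + ∑ i, w i + ∑ i, x * w i
      | J.C => c0
      | J.w i => w i
      | J.u i => x * w i
    let y : Var σ → ℕ := fun t => match t with
      | Sum.inl j => v j
      | Sum.inr (Sum.inl j) => D * v j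
      | Sum.inr (Sum.inr true) => D
      | Sum.inr (Sum.inr false) => 0
    have hprod : ∀ p ∈ prodsJ prods, v p.1 * v p.2.1 = v p.2.2 := by
      intro p hp
      simp only [prodsJ, mem_union, mem_insert, mem_singleton, mem_image, mem_univ, true_and] at hp
      rcases hp with ((rfl | rfl) | ⟨i, rfl⟩) | ⟨q, hq, rfl⟩
      · rfl
      · rfl
      · rfl
      · exact hw2 q hq
    refine ⟨y, ?_⟩
    rw [eval_quartic]
    have e1 : ∑ j : J σ, (((y (Sum.inr (Sum.inl j)) : ℕ) : ℤ) -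
        ((y (Sum.inr (Sum.inr true)) : ℕ) : ℤ) * ((y (Sum.inl j) : ℕ) : ℤ)) ^ 2 = 0 := by
      refine Finset.sum_eq_zero fun j _ => ?_
      have : y (Sum.inr (Sum.inl j)) = y (Sum.inr (Sum.inr true)) * y (Sum.inl j) := rfl
      rw [this]
      push_cast
      ring
    have e2 : ∑ p ∈ prodsJ prods, (((y (Sum.inr (Sum.inl p.1)) : ℕ) : ℤ) *
        ((y (Sum.inr (Sum.inl p.2.1)) : ℕ) : ℤ) -
          ((y (Sum.inr (Sum.inr true)) : ℕ) : ℤ) *
            ((y (Sum.inr (Sum.inl p.2.2)) : ℕ) : ℤ)) ^ 2 = 0 := by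
      refine Finset.sum_eq_zero fun p hp => ?_
      have h1 : y (Sum.inr (Sum.inl p.1)) = D * v p.1 := rfl
      have h2 : y (Sum.inr (Sum.inl p.2.1)) = D * v p.2.1 := rfl
      have h3 : y (Sum.inr (Sum.inl p.2.2)) = D * v p.2.2 := rfl
      have h4 : y (Sum.inr (Sum.inr true)) = D := rfl
      rw [h1, h2, h3, h4, ← hprod p hp]
      push_cast
      ring
    have e3 : ∑ i, (eval ((fun i => ((y i : ℕ) : ℤ)) ∘ emb) (lins i)) ^ 2 = 0 := by
      refine Finset.sum_eq_zero fun i _ => ?_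
      have h1 : ((fun i => ((y i : ℕ) : ℤ)) ∘ emb) =
          (fun o : Option σ => (o.elim (x : ℤ) (fun s => (w s : ℤ)))) := by
        funext o
        cases o with
        | none => rfl
        | some s => rfl
      rw [h1, hw1 i]
      ring
    have e4 : ((y (Sum.inl J.T) : ℕ) : ℤ) - (1 + ((y (Sum.inl J.X) : ℕ) : ℤ) +
        ((y (Sum.inl J.Q) : ℕ) : ℤ) + ∑ i, ((y (Sum.inl (J.w i)) : ℕ) : ℤ) +
            ∑ i, ((y (Sum.inl (J.u i)) : ℕ) : ℤ)) = 0 := by
      have h1 : y (Sum.inl J.T) = 1 + y (Sum.inl J.X) + y (Sum.inl J.Q) +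
        ∑ i, y (Sum.inl (J.w i)) + ∑ i, y (Sum.inl (J.u i)) := rfl
      rw [h1]
      push_cast
      ring
    have e5 : ((y (Sum.inr (Sum.inr true)) : ℕ) : ℤ) - (8 * ((y (Sum.inl J.C) : ℕ) : ℤ) +
        2 * ((y (Sum.inl J.X) : ℕ) : ℤ) + 1 + ((y (Sum.inr (Sum.inr false)) : ℕ) : ℤ)) = 0 := by
      have h1 : y (Sum.inr (Sum.inr true)) = 8 * y (Sum.inl J.C) + 2 * y (Sum.inl J.X) + 1 +
        y (Sum.inr (Sum.inr false)) := rfl
      rw [h1]
      push_cast
      ring
    rw [e1, e2, e3, e4, e5]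
    have h1 : y (Sum.inl J.X) = x := rfl
    rw [h1]
    ring

/-- solvable systems have a representing polynomial of degree at most 4 -/
theorem exists_quartic [Fintype σ] [DecidableEq σ] {ι : Type} [Fintype ι]
    (prods : Finset (σ × σ × σ)) (lins : ι → MvPolynomial (Option σ) ℤ)
    (hl : ∀ i, (lins i).totalDegree ≤ 1) :
    ∃ (n : ℕ) (f : MvPolynomial (Fin n) ℤ), f.totalDegree ≤ 4 ∧ ∀ x : ℕ, 0 < x →
      ((∃ y : Fin n → ℕ, eval (fun i => (y i : ℤ)) f = (x : ℤ)) ↔
      ∃ w : σ → ℕ, (∀ i, eval (fun o : Option σ => (o.elim (x : ℤ) (fun s => (w s : ℤ)))) (lins i) = 0)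
        ∧ ∀ p ∈ prods, w p.1 * w p.2.1 = w p.2.2) := by
  let e := Fintype.equivFin (Var σ)
  refine ⟨Fintype.card (Var σ), rename e (quartic prods lins),
    (totalDegree_rename_le _ _).trans (deg_quartic prods lins hl), fun x hx => ?_⟩
  rw [← quartic_spec prods lins x hx]
  constructor
  · rintro ⟨y, hy⟩
    refine ⟨fun t => y (e t), ?_⟩
    rw [eval_rename] at hy
    exact hy
  · rintro ⟨y, hy⟩
    refine ⟨fun t => y (e.symm t), ?_⟩
    rw [eval_rename]
    rw [← hy]
    congr 1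
    congr 1
    funext t
    simp

end Pool.Agent.Helper91_PrimePoly
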