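import Pool.Agent.Helper91_PrimePoly.Limit

/-!
# Cubic polynomials bounded above on rays are bounded above on natural points

`bddAbove_of_rayBdd`: if a cubic polynomial function is bounded above on each ray starting at a
natural point in a nonnegative real direction, then it is bounded above on all natural points.
-/

set_option autoImplicit false
set_option linter.unusedSectionVars false

namespace Pool.Agent.Helper91_PrimePoly

open Filter Topology

section Coord

variable {ι : Type} [Fintype ι] [DecidableEq ι]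

/-- the cast of a natural point -/
def cst (x : ι → ℕ) : ι → ℝ := fun i => (x i : ℝ)

/-- the span of flat directions with a fixed support consists of mutually flat vectors -/
theorem span_flat {F : Cubic (ι → ℝ)} (h : RayBdd F) (J : Finset ι) (a : ι → ℝ)
    (ha : a ∈ Submodule.span ℝ {y : ι → ℝ | Flat F y ∧ ∀ i, y i ≠ 0 ↔ i ∈ J}) :
    ∀ b ∈ Submodule.span ℝ {y : ι → ℝ | Flat F y ∧ ∀ i, y i ≠ 0 ↔ i ∈ J},
      (∀ z, F.T a b z = 0) ∧ F.q a b = 0 := by
  -- first for `a` a generator
  have h1 : ∀ a ∈ {y : ι → ℝ | Flat F y ∧ ∀ i, y i ≠ 0 ↔ i ∈ J},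
      ∀ b ∈ Submodule.span ℝ {y : ι → ℝ | Flat F y ∧ ∀ i, y i ≠ 0 ↔ i ∈ J},
        (∀ z, F.T a b z = 0) ∧ F.q a b = 0 := by
    rintro a ⟨ha1, ha2⟩ b hb
    induction hb using Submodule.span_induction with
    | mem b hb =>
      exact h.compat a b ha1 hb.1 fun i hi => (ha2 i).2 ((hb.2 i).1 hi)
    | zero => exact ⟨fun z => by simp, by simp⟩
    | add x y _ _ hx hy =>
      refine ⟨fun z => ?_, ?_⟩
      · rw [map_add, LinearMap.add_apply, hx.1, hy.1, add_zero]
      · rw [map_add, hx.2, hy.2, add_zero]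
    | smul r x _ hx =>
      refine ⟨fun z => ?_, ?_⟩
      · rw [map_smul, LinearMap.smul_apply, hx.1, smul_zero]
      · rw [map_smul, hx.2, smul_zero]
  induction ha using Submodule.span_induction with
  | mem a ha => exact h1 a ha
  | zero => exact fun b _ => ⟨fun z => by simp, by simp⟩
  | add x y _ _ hx hy =>
    intro b hb
    obtain ⟨x1, x2⟩ := hx b hb
    obtain ⟨y1, y2⟩ := hy b hb
    refine ⟨fun z => ?_, ?_⟩
    · rw [map_add, LinearMap.add_apply, LinearMap.add_apply, x1, y1, add_zero]
    · rw [map_add, LinearMap.add_apply, x2, y2, add_zero]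
  | smul r x _ hx =>
    intro b hb
    obtain ⟨x1, x2⟩ := hx b hb
    refine ⟨fun z => ?_, ?_⟩
    · rw [map_smul, LinearMap.smul_apply, LinearMap.smul_apply, x1, smul_zero]
    · rw [map_smul, LinearMap.smul_apply, x2, smul_zero]

theorem span_supp {F : Cubic (ι → ℝ)} (J : Finset ι) (a : ι → ℝ)
    (ha : a ∈ Submodule.span ℝ {y : ι → ℝ | Flat F y ∧ ∀ i, y i ≠ 0 ↔ i ∈ J}) :
    ∀ i, i ∉ J → a i = 0 := by
  intro i hi
  induction ha using Submodule.span_induction with
  | mem a ha =>
    by_contra hne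
    exact hi ((ha.2 i).1 hne)
  | zero => rfl
  | add x y _ _ hx hy => rw [Pi.add_apply, hx, hy, add_zero]
  | smul r x _ hx => rw [Pi.smul_apply, hx, smul_zero]

/-- approximability of the sequence `x` by flat directions with support `J` -/
def Approx (F : Cubic (ι → ℝ)) (U : Ultrafilter ℕ) (x : ℕ → ι → ℝ) (J : Finset ι) : Prop :=
  ∃ y : ℕ → ι → ℝ, (∀ᶠ k in (U : Filter ℕ), Flat F (y k) ∧ ∀ i, y k i ≠ 0 ↔ i ∈ J) ∧
    ∀ i ∈ J, Tendsto (fun k => ‖x k - y k‖ / y k i) U (𝓝 0)

/-- the core of the argument: no sequence of natural points with all coordinates tending to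
infinity can have values tending to infinity -/
theorem RayBdd.core {F : Cubic (ι → ℝ)} (h : RayBdd F) (U : Ultrafilter ℕ) (X : ℕ → ι → ℕ)
    (hX1 : Tendsto (fun k => F.ev (cst (X k))) U atTop)
    (hX2 : ∀ i, Tendsto (fun k => cst (X k) i) U atTop) : False := by
  classical
  set x : ℕ → ι → ℝ := fun k => cst (X k) with hx
  have hx0 : ∀ k i, 0 ≤ x k i := fun k i => Nat.cast_nonneg _
  -- a maximal support
  have hP0 : Approx F U x ∅ := by
    refine ⟨fun _ => 0, Eventually.of_forall fun k => ⟨⟨fun i => le_rfl, fun z => by simp, by simp⟩,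
      fun i => by simp⟩, fun i hi => absurd hi (Finset.notMem_empty i)⟩
  obtain ⟨J, hJ, hmax⟩ : ∃ J, Approx F U x J ∧ ∀ J', Approx F U x J' → J'.card ≤ J.card := by
    obtain ⟨J, hJ1, hJ2⟩ := Finset.exists_max_image
      (Finset.univ.filter fun J : Finset ι => Approx F U x J) Finset.card
      ⟨∅, by simp [hP0]⟩
    refine ⟨J, (Finset.mem_filter.1 hJ1).2, fun J' hJ' => hJ2 J' ?_⟩
    simp [hJ']
  obtain ⟨y, hy1, hy2⟩ := hJ
  set S : Set (ι → ℝ) := {y : ι → ℝ | Flat F y ∧ ∀ i, y i ≠ 0 ↔ i ∈ J} with hS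
  set W : Submodule ℝ (ι → ℝ) := Submodule.span ℝ S with hW
  have hWflat : ∀ a ∈ W, (∀ i, 0 ≤ a i) → Flat F a := by
    intro a ha ha0
    obtain ⟨h1, h2⟩ := span_flat h J a ha a ha
    exact ⟨ha0, h1, h2⟩
  have hWsupp : ∀ a ∈ W, ∀ i, i ∉ J → a i = 0 := fun a ha => span_supp J a ha
  -- a linear projection onto `W`
  obtain ⟨g, hg⟩ := LinearMap.exists_leftInverse_of_injective W.subtype W.ker_subtype
  set P : (ι → ℝ) →ₗ[ℝ] (ι → ℝ) := W.subtype.comp g with hP
  have hPmem : ∀ v, P v ∈ W := fun v => (g v).2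
  have hPid : ∀ v ∈ W, P v = v := by
    intro v hv
    have := LinearMap.congr_fun hg ⟨v, hv⟩
    simp only [LinearMap.comp_apply, Submodule.subtype_apply, LinearMap.id_apply] at this
    simp only [hP, LinearMap.comp_apply, Submodule.subtype_apply, this]
  obtain ⟨C, hC0, hC⟩ : ∃ C : ℝ, 0 ≤ C ∧ ∀ v, ‖v - P v‖ ≤ C * ‖v‖ := by
    refine ⟨‖LinearMap.toContinuousLinearMap (LinearMap.id - P)‖, norm_nonneg _, fun v => ?_⟩
    have := (LinearMap.toContinuousLinearMap (LinearMap.id - P)).le_opNorm v
    simpa using this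
  set z : ℕ → ι → ℝ := fun k => x k - P (x k) with hz
  have hz1 : ∀ᶠ k in (U : Filter ℕ), ‖z k‖ ≤ C * ‖x k - y k‖ := by
    filter_upwards [hy1] with k hk
    have hyW : y k ∈ W := Submodule.subset_span hk
    have e1 : z k = (x k - y k) - P (x k - y k) := by
      rw [map_sub, hPid _ hyW, hz]
      abel
    rw [e1]
    exact hC _
  have hypos : ∀ i ∈ J, ∀ᶠ k in (U : Filter ℕ), 0 < y k i := by
    intro i hi
    filter_upwards [hy1] with k hk
    exact lt_of_le_of_ne (hk.1.nonneg i) (Ne.symm ((hk.2 i).2 hi))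
  -- coordinates of the projection
  have hPx : ∀ i ∈ J, ∀ᶠ k in (U : Filter ℕ), y k i / 2 ≤ P (x k) i := by
    intro i hi
    have h1 := (hy2 i hi).eventually_lt_const (show (0 : ℝ) < 1 / (2 * (C + 1)) by positivity)
    filter_upwards [h1, hypos i hi, hz1] with k h2 h3 h4
    rw [div_lt_div_iff₀ h3 (by positivity)] at h2
    have h5 : |(x k - y k) i| ≤ ‖x k - y k‖ := norm_le_pi_norm (x k - y k) i
    have h6 : |z k i| ≤ ‖z k‖ := norm_le_pi_norm (z k) i
    have h7 : P (x k) i = y k i + (x k - y k) i - z k i := by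
      simp only [hz, Pi.sub_apply]
      ring
    have h8 := neg_abs_le ((x k - y k) i)
    have h9 := le_abs_self (z k i)
    rw [h7]
    nlinarith
  have hratio : ∀ i ∈ J, Tendsto (fun k => ‖z k‖ / P (x k) i) U (𝓝 0) := by
    intro i hi
    have h1 := (hy2 i hi).const_mul (2 * C)
    rw [mul_zero] at h1
    refine squeeze_zero' ?_ ?_ h1
    · filter_upwards [hPx i hi, hypos i hi] with k h2 h3
      exact div_nonneg (norm_nonneg _) (by linarith)
    · filter_upwards [hPx i hi, hypos i hi, hz1] with k h2 h3 h4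
      have h5 : 0 < P (x k) i := by linarith
      rw [div_le_iff₀ h5]
      have h6 : 2 * C * (‖x k - y k‖ / y k i) * P (x k) i =
          C * ‖x k - y k‖ * (2 * P (x k) i / y k i) := by ring
      rw [h6]
      have h7 : 1 ≤ 2 * P (x k) i / y k i := by
        rw [le_div_iff₀ h3]
        linarith
      have h8 : 0 ≤ C * ‖x k - y k‖ := mul_nonneg hC0 (norm_nonneg _)
      nlinarith
  have hPflat : ∀ᶠ k in (U : Filter ℕ), Flat F (P (x k)) := by
    have h1 : ∀ᶠ k in (U : Filter ℕ), ∀ i ∈ J, y k i / 2 ≤ P (x k) i ∧ 0 < y k i :=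
      (Finset.eventually_all J).2 fun i hi => (hPx i hi).and (hypos i hi)
    filter_upwards [h1] with k hk
    refine hWflat _ (hPmem _) fun i => ?_
    by_cases hi : i ∈ J
    · have := hk i hi
      linarith
    · rw [hWsupp _ (hPmem _) i hi]
  -- the remainders tend to infinity
  have hznorm : Tendsto (fun k => ‖z k‖) U atTop := by
    rw [tendsto_atTop]
    intro B
    obtain ⟨M, hM⟩ := (isCompact_closedBall (0 : ι → ℝ) B).bddAbove_image (ev_continuous F).continuousOn
    filter_upwards [hPflat, hX1.eventually_gt_atTop M] with k h1 h2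
    by_contra hlt
    push Not at hlt
    have h3 : F.ev (z k) ≤ M := by
      apply hM
      refine ⟨z k, ?_, rfl⟩
      simpa using hlt.le
    have h4 : F.ev (x k) ≤ F.ev (z k) := h.ev_sub _ h1 (X k)
    linarith
  have hzpos : ∀ᶠ k in (U : Filter ℕ), 0 < ‖z k‖ := hznorm.eventually_gt_atTop 0
  obtain ⟨ζ, hζ⟩ := ultra_lim U (fun k => ‖z k‖⁻¹ • z k) 1 (fun k => norm_inv_smul_le _)
  have hζnorm : ‖ζ‖ = 1 := by
    refine tendsto_nhds_unique hζ.norm ?_
    refine (tendsto_const_nhds (x := (1 : ℝ))).congr' ?_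
    filter_upwards [hzpos] with k hk
    exact (norm_inv_smul_eq hk).symm
  have hPζ : P ζ = 0 := by
    have hPc : Continuous P := LinearMap.continuous_of_finiteDimensional P
    refine tendsto_nhds_unique ((hPc.tendsto ζ).comp hζ) ?_
    have : (P ∘ fun k => ‖z k‖⁻¹ • z k) = fun k => (0 : ι → ℝ) := by
      funext k
      simp only [Function.comp_apply, map_smul, hz, map_sub]
      rw [hPid _ (hPmem _), sub_self, smul_zero]
    rw [this]
    exact tendsto_const_nhds
  have hζJ : ∀ i, i ∉ J → 0 ≤ ζ i := by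
    intro i hi
    refine ge_of_tendsto ((tendsto_pi_nhds.1 hζ) i) (Eventually.of_forall fun k => ?_)
    simp only [Pi.smul_apply, smul_eq_mul]
    refine mul_nonneg (inv_nonneg.2 (norm_nonneg _)) ?_
    simp only [hz, Pi.sub_apply, hWsupp _ (hPmem _) i hi, sub_zero]
    exact hx0 k i
  -- a fixed flat direction with support `J`
  obtain ⟨u, hu1, hu2⟩ : ∃ u : ι → ℝ, Flat F u ∧ ∀ i, u i ≠ 0 ↔ i ∈ J := by
    obtain ⟨k, hk⟩ := hy1.exists
    exact ⟨y k, hk⟩
  have huW : u ∈ W := Submodule.subset_span ⟨hu1, hu2⟩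
  have hupos : ∀ i ∈ J, 0 < u i := fun i hi =>
    lt_of_le_of_ne (hu1.nonneg i) (Ne.symm ((hu2 i).2 hi))
  obtain ⟨lam, hlam0, hlam⟩ : ∃ lam : ℝ, 0 < lam ∧ ∀ i ∈ J, 2 ≤ lam * u i := by
    have h1 : ∀ᶠ lam : ℝ in atTop, ∀ i ∈ J, 2 ≤ lam * u i := by
      refine (Finset.eventually_all J).2 fun i hi => ?_
      filter_upwards [eventually_ge_atTop (2 / u i)] with lam hl
      rwa [div_le_iff₀ (hupos i hi)] at hl
    obtain ⟨lam, h2, h3⟩ := (h1.and (eventually_gt_atTop 0)).exists
    exact ⟨lam, h3, h2⟩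
  set a : ℕ → ι → ℝ := fun k => P (x k) - (lam * ‖z k‖) • u with ha
  have haW : ∀ k, a k ∈ W := fun k => W.sub_mem (hPmem _) (W.smul_mem _ huW)
  have haflat : ∀ᶠ k in (U : Filter ℕ), Flat F (a k) := by
    have h1 : ∀ᶠ k in (U : Filter ℕ), ∀ i ∈ J, 0 ≤ a k i := by
      refine (Finset.eventually_all J).2 fun i hi => ?_
      have hlu : 0 < lam * u i := mul_pos hlam0 (hupos i hi)
      have h2 := (hratio i hi).eventually_lt_const (show (0 : ℝ) < 1 / (lam * u i) by positivity)
      filter_upwards [h2, hPx i hi, hypos i hi] with k h3 h4 h5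
      have h6 : 0 < P (x k) i := by linarith
      rw [div_lt_div_iff₀ h6 hlu] at h3
      simp only [ha, Pi.sub_apply, Pi.smul_apply, smul_eq_mul]
      nlinarith
    filter_upwards [h1] with k hk
    refine hWflat _ (haW k) fun i => ?_
    by_cases hi : i ∈ J
    · exact hk i hi
    · rw [hWsupp _ (haW k) i hi]
  set w : ℕ → ι → ℝ := fun k => x k - a k with hw
  have hwdef : ∀ k, w k = (lam * ‖z k‖) • u + z k := by
    intro k
    change x k - (P (x k) - (lam * ‖z k‖) • u) = (lam * ‖z k‖) • u + (x k - P (x k))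
    rw [sub_sub_eq_add_sub, add_comm (x k), add_sub_assoc]
  have hwF : ∀ᶠ k in (U : Filter ℕ), 0 ≤ F.ev (w k) := by
    filter_upwards [haflat, hX1.eventually_ge_atTop 0] with k h1 h2
    have h3 : F.ev (x k) ≤ F.ev (w k) := h.ev_sub _ h1 (X k)
    exact h2.trans h3
  have hwtop : ∀ i, Tendsto (fun k => w k i) U atTop := by
    intro i
    by_cases hi : i ∈ J
    · refine tendsto_atTop_mono (fun k => ?_) hznorm
      rw [hwdef]
      simp only [Pi.add_apply, Pi.smul_apply, smul_eq_mul]
      have h1 : |z k i| ≤ ‖z k‖ := norm_le_pi_norm (z k) i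
      have h2 := neg_abs_le (z k i)
      have h3 := hlam i hi
      have h4 := norm_nonneg (z k)
      nlinarith
    · have : (fun k => w k i) = fun k => x k i := by
        funext k
        simp only [hw, Pi.sub_apply, hWsupp _ (haW k) i hi, sub_zero]
      rw [this]
      exact hX2 i
  set v : ι → ℝ := lam • u + ζ with hv
  have hwlim : Tendsto (fun k => (‖z k‖)⁻¹ • w k) U (𝓝 v) := by
    have h1 : Tendsto (fun k => lam • u + ‖z k‖⁻¹ • z k) U (𝓝 v) := tendsto_const_nhds.add hζ
    refine h1.congr' ?_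
    filter_upwards [hzpos] with k hk
    rw [hwdef, smul_add, smul_smul]
    congr 2
    field_simp
  have hvflat : Flat F v := h.flat_limit U w (fun k => ‖z k‖) v hznorm hwtop hwF hwlim
  have hvJ : ∀ i ∈ J, 0 < v i := by
    intro i hi
    have h1 : |ζ i| ≤ ‖ζ‖ := norm_le_pi_norm ζ i
    have h2 := neg_abs_le (ζ i)
    have h3 := hlam i hi
    simp only [hv, Pi.add_apply, Pi.smul_apply, smul_eq_mul]
    linarith
  by_cases hcase : ∀ i, v i ≠ 0 → i ∈ J
  · -- the support does not grow
    have hvW : v ∈ W := Submodule.subset_span ⟨hvflat, fun i => ⟨hcase i, fun hi => (hvJ i hi).ne'⟩⟩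
    have hζW : ζ ∈ W := by
      have : ζ = v - lam • u := by
        rw [hv]
        abel
      rw [this]
      exact W.sub_mem hvW (W.smul_mem _ huW)
    have h1 := hPid ζ hζW
    rw [hPζ] at h1
    rw [← h1, norm_zero] at hζnorm
    exact zero_ne_one hζnorm
  · -- the support grows
    push Not at hcase
    obtain ⟨i₁, hi₁, hi₁J⟩ := hcase
    set J' : Finset ι := Finset.univ.filter fun i => v i ≠ 0 with hJ'
    have hsub : J ⊆ J' := by
      intro i hi
      simp only [hJ', Finset.mem_filter, Finset.mem_univ, true_and]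
      exact (hvJ i hi).ne'
    have hlt : J.card < J'.card := by
      apply Finset.card_lt_card
      refine ⟨hsub, fun hcon => hi₁J (hcon ?_)⟩
      simp only [hJ', Finset.mem_filter, Finset.mem_univ, true_and]
      exact hi₁
    have hvpos : ∀ i ∈ J', 0 < v i := by
      intro i hi
      simp only [hJ', Finset.mem_filter, Finset.mem_univ, true_and] at hi
      exact lt_of_le_of_ne (hvflat.nonneg i) (Ne.symm hi)
    have hPJ' : Approx F U x J' := by
      refine ⟨fun k => ‖z k‖ • v + a k, ?_, ?_⟩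
      · filter_upwards [hzpos, haflat] with k h1 h2
        have h3 : ∀ i, a k i ≠ 0 → (‖z k‖ • v) i ≠ 0 := by
          intro i hi
          have hiJ : i ∈ J := by
            by_contra hn
            exact hi (hWsupp _ (haW k) i hn)
          simp only [Pi.smul_apply, smul_eq_mul]
          exact (mul_pos h1 (hvJ i hiJ)).ne'
        refine ⟨Flat.add h (hvflat.smul h1.le) h2 h3, fun i => ?_⟩
        simp only [Pi.add_apply, Pi.smul_apply, smul_eq_mul]
        constructor
        · intro hne
          by_contra hn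
          apply hne
          have hvi : v i = 0 := by
            by_contra hvi
            exact hn (by simp only [hJ', Finset.mem_filter, Finset.mem_univ, true_and]; exact hvi)
          have hai : a k i = 0 := hWsupp _ (haW k) i fun hi => hn (hsub hi)
          rw [hvi, hai]
          ring
        · intro hi
          have h4 := mul_pos h1 (hvpos i hi)
          have h5 := h2.nonneg i
          exact (by linarith : (0 : ℝ) < ‖z k‖ * v i + a k i).ne'
      · intro i hi
        have hvi := hvpos i hi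
        have h1 : Tendsto (fun k => ‖(‖z k‖)⁻¹ • w k - v‖ / v i) U (𝓝 0) := by
          have h2 : Tendsto (fun k => ‖(‖z k‖)⁻¹ • w k - v‖) U (𝓝 0) := by
            have h3 := (hwlim.sub_const v).norm
            rwa [sub_self, norm_zero] at h3
          have h4 := h2.div_const (v i)
          rwa [zero_div] at h4
        refine squeeze_zero' ?_ ?_ h1
        · filter_upwards [hzpos, haflat] with k h2 h3
          have h4 := mul_pos h2 hvi
          have h5 := h3.nonneg i
          refine div_nonneg (norm_nonneg _) ?_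
          simp only [Pi.add_apply, Pi.smul_apply, smul_eq_mul]
          linarith
        · filter_upwards [hzpos, haflat] with k h2 h3
          have h4 := mul_pos h2 hvi
          have h5 := h3.nonneg i
          have e1 : x k - (‖z k‖ • v + a k) = ‖z k‖ • ((‖z k‖)⁻¹ • w k - v) := by
            rw [smul_sub, smul_inv_smul₀ h2.ne']
            exact sub_add_eq_sub_sub_swap _ _ _
          rw [e1, norm_smul, norm_norm]
          simp only [Pi.add_apply, Pi.smul_apply, smul_eq_mul]
          rw [div_le_div_iff₀ (by linarith) hvi]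
          have h6 := norm_nonneg ((‖z k‖)⁻¹ • w k - v)
          have h7 : ‖z k‖ * ‖(‖z k‖)⁻¹ • w k - v‖ * v i =
            ‖(‖z k‖)⁻¹ • w k - v‖ * (‖z k‖ * v i) := by ring
          rw [h7]
          exact mul_le_mul_of_nonneg_left (by linarith) h6
    have := hmax J' hPJ'
    omega

end Coord

/-- extension by zero from the complement of a coordinate -/
noncomputable def ext0 {ι : Type} [DecidableEq ι] (i : ι) :
    ({j : ι // j ≠ i} → ℝ) →ₗ[ℝ] (ι → ℝ) where
  toFun x j := if hj : j ≠ i then x ⟨j, hj⟩ else 0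
  map_add' x y := by
    funext j
    simp only [Pi.add_apply]
    split_ifs
    · rfl
    · simp
  map_smul' r x := by
    funext j
    simp only [Pi.smul_apply, RingHom.id_apply]
    split_ifs
    · rfl
    · simp

/-- **Cubic polynomial functions bounded above on rays are bounded above on natural points.** -/
theorem bddAbove_of_rayBdd (n : ℕ) : ∀ (ι : Type) [Fintype ι] [DecidableEq ι],
    Fintype.card ι = n → ∀ F : Cubic (ι → ℝ), RayBdd F →
      ∃ M : ℝ, ∀ x : ι → ℕ, F.ev (cst x) ≤ M := by
  induction n using Nat.strong_induction_on with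
  | _ n ih =>
  intro ι _ _ hcard F hF
  by_contra hcon
  push Not at hcon
  -- slices
  have slice : ∀ (i : ι) (c : ℕ), ∃ M : ℝ, ∀ x : ι → ℕ, x i = c → F.ev (cst x) ≤ M := by
    intro i c
    set b : ι → ℝ := fun j => if j = i then (c : ℝ) else 0 with hb
    have key : ∀ x : ι → ℕ, x i = c → cst x = ext0 i (cst fun j : {j : ι // j ≠ i} => x j) + b := by
      intro x hx
      funext j
      by_cases hj : j = i
      · subst hj
        simp [ext0, cst, hb, hx]
      · simp [ext0, cst, hb, hj]
    have hbdd : RayBdd (F.comp (ext0 i) b) := by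
      intro x' y' hy'
      let x : ι → ℕ := fun j => if hj : j ≠ i then x' ⟨j, hj⟩ else c
      have hx : x i = c := by simp [x]
      have hx' : (fun j : {j : ι // j ≠ i} => x j) = x' := by
        funext j
        simp [x, j.2]
      obtain ⟨M, hM⟩ := hF x (ext0 i y') (fun j => by
        by_cases hj : j = i
        · subst hj
          simp [ext0]
        · simp only [ext0, LinearMap.coe_mk, AddHom.coe_mk]
          rw [dif_pos hj]
          exact hy' _)
      refine ⟨M, fun R hR => ?_⟩
      have h1 := hM R hR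
      rw [Cubic.comp_ev]
      have h2 : (fun j => (x j : ℝ)) = ext0 i (cst x') + b := by
        have := key x hx
        rw [hx'] at this
        exact this
      rw [h2] at h1
      have h3 : ext0 i ((fun j => (x' j : ℝ)) + R • y') + b =
          ext0 i (cst x') + b + R • ext0 i y' := by
        rw [map_add, map_smul]
        exact add_right_comm _ _ _
      rw [h3]
      exact h1
    have hlt : Fintype.card {j : ι // j ≠ i} < n := by
      rw [← hcard]
      exact Fintype.card_subtype_lt (x := i) (by simp)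
    obtain ⟨M, hM⟩ := ih _ hlt {j : ι // j ≠ i} rfl (F.comp (ext0 i) b) hbdd
    refine ⟨M, fun x hx => ?_⟩
    have h1 := hM fun j => x j
    rw [Cubic.comp_ev, ← key x hx] at h1
    exact h1
  choose Ms hMs using slice
  have hseq : ∀ k : ℕ, ∃ x : ι → ℕ, (k : ℝ) ≤ F.ev (cst x) ∧ ∀ i, k ≤ x i := by
    intro k
    obtain ⟨x, hx⟩ := hcon ((k : ℝ) + ∑ i, ∑ c ∈ Finset.range k, |Ms i c|)
    have h0 : 0 ≤ ∑ i, ∑ c ∈ Finset.range k, |Ms i c| :=
      Finset.sum_nonneg fun i _ => Finset.sum_nonneg fun c _ => abs_nonneg _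
    refine ⟨x, by linarith, fun i => ?_⟩
    by_contra hlt
    push Not at hlt
    have h1 := hMs i (x i) x rfl
    have h2 : |Ms i (x i)| ≤ ∑ c ∈ Finset.range k, |Ms i c| :=
      Finset.single_le_sum (f := fun c => |Ms i c|) (fun c _ => abs_nonneg _)
        (Finset.mem_range.2 hlt)
    have h3 : ∑ c ∈ Finset.range k, |Ms i c| ≤ ∑ i, ∑ c ∈ Finset.range k, |Ms i c| :=
      Finset.single_le_sum (f := fun i => ∑ c ∈ Finset.range k, |Ms i c|)
        (fun i _ => Finset.sum_nonneg fun c _ => abs_nonneg _) (Finset.mem_univ i)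
    have h4 := le_abs_self (Ms i (x i))
    have h5 : (0 : ℝ) ≤ k := Nat.cast_nonneg k
    linarith
  choose X hX1 hX2 using hseq
  refine hF.core (hyperfilter ℕ) X ?_ ?_
  · exact (tendsto_atTop_mono hX1 tendsto_natCast_atTop_atTop).mono_left Nat.hyperfilter_le_atTop
  · intro i
    refine (tendsto_atTop_mono (fun k => ?_) tendsto_natCast_atTop_atTop).mono_left
      Nat.hyperfilter_le_atTop
    exact Nat.cast_le.2 (hX2 k i)

end Pool.Agent.Helper91_PrimePoly
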