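import Mathlib

/-!
# Robust quadratic systems

Variables over `ℕ`: `x`, the variables `w i` of a system of linear equations and products
`w i * w j = w k`, and auxiliary variables.  Every product constraint is replaced by the
quadratic *approximate* conditions `W ≈ D * w` (for every variable) and `W i * W j ≈ D * W k`, which
force the product constraint exactly when `D` is large compared with the variables and the errors
are smaller than `x`.
-/

set_option autoImplicit false

namespace Pool.Agent.Helper91_PrimePoly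

open Finset

/-- the variables of the doubled system -/
inductive J (σ : Type) : Type
  | X | Q | T | C
  | w (i : σ)
  | u (i : σ)
  deriving Fintype, DecidableEq

/-- the product constraints of the doubled system: `(i, j, k)` stands for `v i * v j = v k` -/
def prodsJ {σ : Type} [Fintype σ] [DecidableEq σ] (prods : Finset (σ × σ × σ)) :
    Finset (J σ × J σ × J σ) :=
  {(J.X, J.X, J.Q), (J.X, J.T, J.C)} ∪ univ.image (fun i => (J.X, J.w i, J.u i)) ∪
    prods.image (fun p => (J.w p.1, J.w p.2.1, J.w p.2.2))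

/-- the key computation -/
theorem key (D wi wj wk ri rj rk s x : ℤ) (hD : 2 * x + 1 ≤ D) (hx : 1 ≤ x)
    (h : (D * wi + ri) * (D * wj + rj) = D * (D * wk + rk) + s)
    (hi : ri ^ 2 ≤ x - 1) (hj : rj ^ 2 ≤ x - 1) (hs : s ^ 2 ≤ x - 1) :
    s = ri * rj ∧ D * (wi * wj - wk) = rk - ri * wj - rj * wi := by
  have h1 : ri * rj - s = D * (D * wk + rk - D * wi * wj - wi * rj - wj * ri) := by
    linear_combination h
  have h2 : |ri * rj - s| < D := by
    have hs1 := Int.le_self_sq s
    have hs2 := Int.le_self_sq (-s)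
    have e1 : 2 * (ri * rj) ≤ ri ^ 2 + rj ^ 2 := by nlinarith [sq_nonneg (ri - rj)]
    have e2 : -(2 * (ri * rj)) ≤ ri ^ 2 + rj ^ 2 := by nlinarith [sq_nonneg (ri + rj)]
    rw [abs_lt]
    constructor <;> nlinarith
  have h3 : ri * rj - s = 0 := Int.eq_zero_of_abs_lt_dvd ⟨_, h1⟩ h2
  have hD0 : D ≠ 0 := by
    intro h
    linarith
  refine ⟨by linarith, ?_⟩
  have h4 : D * (D * wk + rk - D * wi * wj - wi * rj - wj * ri) = 0 := by rw [← h1, h3]
  rcases mul_eq_zero.1 h4 with h5 | h5
  · exact absurd h5 hD0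
  · linear_combination -h5

/-- an integer whose square is at most `x - 1` has absolute value at most `x - 1` -/
theorem abs_le_of_sq {r x : ℤ} (h : r ^ 2 ≤ x - 1) : |r| ≤ x - 1 := by
  have h1 := Int.le_self_sq r
  have h2 := Int.le_self_sq (-r)
  rw [abs_le]
  constructor <;> nlinarith

/-- exactness from closeness: if `D * y` is a combination smaller than `D` then `y = 0` -/
theorem exact_of_small (D y wi wj ri rj rk M x : ℤ) (hx : 1 ≤ x)
    (h : D * y = rk - ri * wj - rj * wi)
    (hwi : 0 ≤ wi) (hwj : 0 ≤ wj) (hi : |ri| ≤ x - 1) (hj : |rj| ≤ x - 1) (hk : |rk| ≤ x - 1)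
    (hM : 1 + wi + wj ≤ M) (hD : (x - 1) * M < D) : y = 0 := by
  have h1 : |D * y| < D := by
    rw [h]
    have a1 : |rk - ri * wj - rj * wi| ≤ |rk| + |ri * wj| + |rj * wi| := by
      calc |rk - ri * wj - rj * wi| ≤ |rk - ri * wj| + |rj * wi| := abs_sub _ _
        _ ≤ |rk| + |ri * wj| + |rj * wi| := by
          have := abs_sub rk (ri * wj)
          linarith
    have a2 : |ri * wj| ≤ (x - 1) * wj := by
      rw [abs_mul, abs_of_nonneg hwj]
      exact mul_le_mul_of_nonneg_right hi hwj
    have a3 : |rj * wi| ≤ (x - 1) * wi := by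
      rw [abs_mul, abs_of_nonneg hwi]
      exact mul_le_mul_of_nonneg_right hj hwi
    have a4 : (x - 1) * (1 + wi + wj) ≤ (x - 1) * M :=
      mul_le_mul_of_nonneg_left hM (by linarith)
    have a5 : (x - 1) * (1 + wi + wj) = (x - 1) + (x - 1) * wi + (x - 1) * wj := by ring
    linarith
  have h2 : D * y = 0 := Int.eq_zero_of_abs_lt_dvd ⟨y, rfl⟩ h1
  have hM0 : 0 ≤ (x - 1) * M := mul_nonneg (by linarith) (by linarith)
  rcases mul_eq_zero.1 h2 with h3 | h3
  · linarith
  · exact h3

/-- the doubled system forces exactness -/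
theorem robust {σ : Type} [Fintype σ] [DecidableEq σ] (prods : Finset (σ × σ × σ))
    (v V : J σ → ℤ) (D sl : ℤ) (hv : ∀ j, 0 ≤ v j) (hsl : 0 ≤ sl) (hx : 1 ≤ v J.X)
    (hT : v J.T = 1 + v J.X + v J.Q + ∑ i, v (J.w i) + ∑ i, v (J.u i))
    (hD : D = 8 * v J.C + 2 * v J.X + 1 + sl)
    (hr : ∀ j, (V j - D * v j) ^ 2 ≤ v J.X - 1)
    (hs : ∀ p ∈ prodsJ prods, (V p.1 * V p.2.1 - D * V p.2.2) ^ 2 ≤ v J.X - 1) :
    (∀ j, V j = D * v j) ∧ (∀ p ∈ prodsJ prods, v p.1 * v p.2.1 = v p.2.2) := by
  set r : J σ → ℤ := fun j => V j - D * v j with hrdef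
  have hV : ∀ j, V j = D * v j + r j := fun j => by simp [hrdef]
  have hr' : ∀ j, |r j| ≤ v J.X - 1 := fun j => abs_le_of_sq (hr j)
  have hD1 : 2 * v J.X + 1 ≤ D := by
    have := hv J.C
    linarith
  have hkey : ∀ p ∈ prodsJ prods, V p.1 * V p.2.1 - D * V p.2.2 = r p.1 * r p.2.1 ∧
      D * (v p.1 * v p.2.1 - v p.2.2) = r p.2.2 - r p.1 * v p.2.1 - r p.2.1 * v p.1 := by
    intro p hp
    refine key D (v p.1) (v p.2.1) (v p.2.2) (r p.1) (r p.2.1) (r p.2.2) _ (v J.X) hD1 hx ?_
      (hr _) (hr _) (hs p hp)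
    rw [← hV, ← hV, ← hV]
    ring
  -- memberships
  have mXQ : ((J.X, J.X, J.Q) : J σ × J σ × J σ) ∈ prodsJ prods := by simp [prodsJ]
  have mXT : ((J.X, J.T, J.C) : J σ × J σ × J σ) ∈ prodsJ prods := by simp [prodsJ]
  have mXu : ∀ i, ((J.X, J.w i, J.u i) : J σ × J σ × J σ) ∈ prodsJ prods := by
    intro i
    simp [prodsJ]
  -- all variables but `C` are bounded by `t`
  have hw1 : ∀ i, v (J.w i) ≤ ∑ i, v (J.w i) := fun i =>
    Finset.single_le_sum (f := fun i => v (J.w i)) (fun i _ => hv _) (mem_univ i)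
  have hu1 : ∀ i, v (J.u i) ≤ ∑ i, v (J.u i) := fun i =>
    Finset.single_le_sum (f := fun i => v (J.u i)) (fun i _ => hv _) (mem_univ i)
  have hw0 : 0 ≤ ∑ i, v (J.w i) := Finset.sum_nonneg fun i _ => hv _
  have hu0 : 0 ≤ ∑ i, v (J.u i) := Finset.sum_nonneg fun i _ => hv _
  have hQ0 := hv J.Q
  have hXt : 1 + v J.X ≤ v J.T := by linarith
  have hwt : ∀ i, 1 + v (J.w i) ≤ v J.T := fun i => by
    have := hw1 i
    linarith
  -- first: `c` is large
  have hc : (v J.X - 1) * v J.T ≤ v J.C := by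
    obtain ⟨-, h2⟩ := hkey _ mXT
    simp only at h2
    by_contra hcon
    push Not at hcon
    -- `x t - c > t`
    have h3 : v J.T < v J.X * v J.T - v J.C := by linarith
    have h4 : |r J.C - r J.X * v J.T - r J.T * v J.X| ≤ (v J.X - 1) * (1 + v J.T + v J.X) := by
      have a1 : |r J.C - r J.X * v J.T - r J.T * v J.X| ≤
          |r J.C| + |r J.X * v J.T| + |r J.T * v J.X| := by
        have b1 := abs_sub (r J.C - r J.X * v J.T) (r J.T * v J.X)
        have b2 := abs_sub (r J.C) (r J.X * v J.T)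
        linarith
      have a2 : |r J.X * v J.T| ≤ (v J.X - 1) * v J.T := by
        rw [abs_mul, abs_of_nonneg (hv J.T)]
        exact mul_le_mul_of_nonneg_right (hr' _) (hv J.T)
      have a3 : |r J.T * v J.X| ≤ (v J.X - 1) * v J.X := by
        rw [abs_mul, abs_of_nonneg (hv J.X)]
        exact mul_le_mul_of_nonneg_right (hr' _) (hv J.X)
      have a4 := hr' J.C
      nlinarith
    rw [← h2] at h4
    have h5 : D * (v J.X * v J.T - v J.C) ≤ (v J.X - 1) * (1 + v J.T + v J.X) :=
      le_trans (le_abs_self _) h4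
    have h6 : (2 * v J.X + 1) * v J.T ≤ D * (v J.X * v J.T - v J.C) := by
      have b1 : (2 * v J.X + 1) * v J.T ≤ D * v J.T :=
        mul_le_mul_of_nonneg_right hD1 (hv _)
      have b2 : D * v J.T ≤ D * (v J.X * v J.T - v J.C) :=
        mul_le_mul_of_nonneg_left h3.le (by linarith)
      linarith
    have h7 : (v J.X - 1) * (1 + v J.T + v J.X) ≤ (v J.X - 1) * (2 * v J.T) :=
      mul_le_mul_of_nonneg_left (by linarith) (by linarith)
    nlinarith
  have hDM : (v J.X - 1) * (2 * v J.T) < D := by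
    have := mul_nonneg (show 0 ≤ v J.X - 1 by linarith) (hv J.T)
    nlinarith
  -- exactness of all product constraints
  have hex : ∀ p ∈ prodsJ prods, v p.1 * v p.2.1 = v p.2.2 := by
    intro p hp
    obtain ⟨-, h2⟩ := hkey p hp
    have hb : 1 + v p.1 + v p.2.1 ≤ 2 * v J.T := by
      simp only [prodsJ, mem_union, mem_insert, mem_singleton, mem_image, mem_univ, true_and] at hp
      rcases hp with ((rfl | rfl) | ⟨i, rfl⟩) | ⟨q, -, rfl⟩
      · simp only
        linarith
      · simp only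
        linarith
      · simp only
        have := hwt i
        linarith
      · simp only
        have e1 := hwt q.1
        have e2 := hwt q.2.1
        linarith
    have := exact_of_small D (v p.1 * v p.2.1 - v p.2.2) (v p.1) (v p.2.1) (r p.1) (r p.2.1)
      (r p.2.2) (2 * v J.T) (v J.X) hx h2 (hv _) (hv _) (hr' _) (hr' _) (hr' _) hb hDM
    linarith
  have hres : ∀ p ∈ prodsJ prods, r p.2.2 = r p.1 * v p.2.1 + r p.2.1 * v p.1 := by
    intro p hp
    obtain ⟨-, h2⟩ := hkey p hp
    rw [hex p hp, sub_self, mul_zero] at h2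
    linarith
  -- all the errors vanish
  have hmul : ∀ a b : ℤ, |b| ≤ v J.X - 1 → b = v J.X * a → a = 0 := by
    intro a b hb hab
    have h1 : |b| < v J.X := by linarith
    have h2 : b = 0 := Int.eq_zero_of_abs_lt_dvd ⟨a, hab⟩ h1
    rw [h2] at hab
    rcases mul_eq_zero.1 hab.symm with h3 | h3
    · linarith
    · exact h3
  have rX : r J.X = 0 := by
    have h1 := hres _ mXQ
    simp only at h1
    have h2 : 2 * r J.X = 0 := hmul (2 * r J.X) (r J.Q) (hr' _) (by rw [h1]; ring)
    linarith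
  have rQ : r J.Q = 0 := by
    have h1 := hres _ mXQ
    simp only at h1
    rw [h1, rX]
    ring
  have rT : r J.T = 0 := by
    have h1 := hres _ mXT
    simp only at h1
    exact hmul (r J.T) (r J.C) (hr' _) (by rw [h1, rX]; ring)
  have rC : r J.C = 0 := by
    have h1 := hres _ mXT
    simp only at h1
    rw [h1, rX, rT]
    ring
  have rw' : ∀ i, r (J.w i) = 0 := by
    intro i
    have h1 := hres _ (mXu i)
    simp only at h1
    exact hmul (r (J.w i)) (r (J.u i)) (hr' _) (by rw [h1, rX]; ring)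
  have ru : ∀ i, r (J.u i) = 0 := by
    intro i
    have h1 := hres _ (mXu i)
    simp only at h1
    rw [h1, rX, rw' i]
    ring
  refine ⟨fun j => ?_, hex⟩
  rw [hV j]
  cases j with
  | X => rw [rX, add_zero]
  | Q => rw [rQ, add_zero]
  | T => rw [rT, add_zero]
  | C => rw [rC, add_zero]
  | w i => rw [rw' i, add_zero]
  | u i => rw [ru i, add_zero]

end Pool.Agent.Helper91_PrimePoly
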