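import Pool.Agent.Helper91_PrimePoly.Quartic
import Pool.Agent.Common_MRDP.MRDP

/-!
# From a polynomial equation to a system of linear equations and products

The unknowns of the system are the values of all monomials whose exponents are at most `N`.
-/

set_option autoImplicit false

namespace Pool.Agent.Helper91_PrimePoly

open Finset MvPolynomial

variable {m N : ℕ}

/-- exponent vectors -/
abbrev Exp (m N : ℕ) : Type := Fin m → Fin (N + 1)

/-- all the product constraints between monomials -/
def mprods (m N : ℕ) : Finset (Exp m N × Exp m N × Exp m N) :=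
  univ.filter fun p => ∀ i, (p.1 i : ℕ) + p.2.1 i = p.2.2 i

/-- the exponent vector of the variable `i` -/
def unit (m N : ℕ) (i : Fin m) : Exp m N := fun j => if j = i then (Fin.ofNat (N + 1) 1) else 0

theorem unit_val (hN : 1 ≤ N) (i j : Fin m) :
    ((unit m N i j : Fin (N + 1)) : ℕ) = if j = i then 1 else 0 := by
  unfold unit
  split_ifs
  · simp [Fin.ofNat]
    omega
  · simp

/-- solutions of the monomial system are monomial values -/
theorem monomial_system (hN : 1 ≤ N) (w : Exp m N → ℕ) (h0 : w 0 = 1)
    (hw : ∀ p ∈ mprods m N, w p.1 * w p.2.1 = w p.2.2) (f : Exp m N) :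
    w f = ∏ i, w (unit m N i) ^ (f i : ℕ) := by
  induction hs : ∑ i, (f i : ℕ) using Nat.strong_induction_on generalizing f with
  | _ s ih =>
    by_cases hf : ∀ i, (f i : ℕ) = 0
    · have : f = 0 := by
        funext i
        exact Fin.ext (hf i)
      rw [this, h0]
      simp
    · push Not at hf
      obtain ⟨i, hi⟩ := hf
      let g : Exp m N := Function.update f i ⟨(f i : ℕ) - 1, by have := (f i).2; omega⟩
      have hg : ∀ j, (g j : ℕ) = if j = i then (f i : ℕ) - 1 else f j := by
        intro j
        by_cases hji : j = i
        · subst hji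
          simp [g]
        · simp [g, hji]
      have hmem : (unit m N i, g, f) ∈ mprods m N := by
        simp only [mprods, mem_filter, mem_univ, true_and]
        intro j
        rw [unit_val hN, hg]
        by_cases hji : j = i
        · subst hji
          simp
          omega
        · simp [hji]
      have hlt : ∑ j, (g j : ℕ) < s := by
        rw [← hs]
        refine Finset.sum_lt_sum (fun j _ => ?_) ⟨i, mem_univ i, ?_⟩
        · rw [hg]
          split_ifs with h
          · subst h
            omega
          · exact le_rfl
        · rw [hg, if_pos rfl]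
          omega
      have h1 := ih _ hlt g rfl
      rw [← hw _ hmem]
      simp only
      rw [h1]
      rw [← Finset.mul_prod_erase univ (fun j => w (unit m N j) ^ (g j : ℕ)) (mem_univ i),
        ← Finset.mul_prod_erase univ (fun j => w (unit m N j) ^ (f j : ℕ)) (mem_univ i), ← mul_assoc]
      congr 1
      · rw [hg]
        simp only [if_true]
        rw [← pow_succ']
        congr 1
        omega
      · refine Finset.prod_congr rfl fun j hj => ?_
        have hji : j ≠ i := Finset.ne_of_mem_erase hj
        rw [hg]
        simp [hji]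

/-- the exponent vector of a monomial -/
def toExp (N : ℕ) (s : Fin m →₀ ℕ) : Exp m N := fun i => Fin.ofNat (N + 1) (s i)

theorem toExp_val (s : Fin m →₀ ℕ) (hs : ∀ i, s i ≤ N) (i : Fin m) :
    ((toExp N s i : Fin (N + 1)) : ℕ) = s i := by
  unfold toExp
  simp only [Fin.ofNat]
  exact Nat.mod_eq_of_lt (Nat.lt_succ_of_le (hs i))

/-- a polynomial equation is equivalent to a system of linear equations and products -/
theorem exists_system (k : ℕ) (P : MvPolynomial (Fin (k + 1)) ℤ) :
    ∃ (N : ℕ) (lins : Fin 3 → MvPolynomial (Option (Exp (k + 1) N)) ℤ),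
      (∀ i, (lins i).totalDegree ≤ 1) ∧ ∀ x : ℕ,
        ((∃ y : Fin k → ℕ, eval (fun i => ((Fin.cons x y : Fin (k + 1) → ℕ) i : ℤ)) P = 0) ↔
        ∃ w : Exp (k + 1) N → ℕ,
          (∀ i, eval (fun o : Option (Exp (k + 1) N) =>
            (o.elim (x : ℤ) (fun s => (w s : ℤ)))) (lins i) = 0)
          ∧ ∀ p ∈ mprods (k + 1) N, w p.1 * w p.2.1 = w p.2.2) := by
  classical
  set N : ℕ := P.totalDegree + 1 with hN
  have hN1 : 1 ≤ N := by omega
  have hsupp : ∀ s ∈ P.support, ∀ i, s i ≤ N := by
    intro s hs i
    have h1 : s i ≤ ∑ j ∈ s.support, s j := by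
      by_cases h : i ∈ s.support
      · exact Finset.single_le_sum (f := fun j => s j) (fun j _ => Nat.zero_le _) h
      · rw [Finsupp.notMem_support_iff] at h
        omega
    have h2 := le_totalDegree hs
    have h3 : (s.sum fun _ e => e) = ∑ j ∈ s.support, s j := rfl
    omega
  let lins : Fin 3 → MvPolynomial (Option (Exp (k + 1) N)) ℤ := ![
    X (some 0) - 1,
    X (some (unit (k + 1) N 0)) - X none,
    ∑ s ∈ P.support, C (coeff s P) * X (some (toExp N s))]
  refine ⟨N, lins, ?_, fun x => ?_⟩
  · intro i
    fin_cases i
    · refine deg_sub (deg_X _) ?_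
      rw [totalDegree_one]
      exact Nat.zero_le _
    · exact deg_sub (deg_X _) (deg_X _)
    · exact deg_sum _ _ fun s _ => deg_mul (m := 0) (n := 1) (deg_const _ _) (deg_X _) le_rfl
  · -- the value of the third linear form on monomial values
    have hP : ∀ (w : Exp (k + 1) N → ℕ) (z : Fin (k + 1) → ℕ),
        (∀ f : Exp (k + 1) N, w f = ∏ i, z i ^ (f i : ℕ)) →
        (∑ s ∈ P.support, coeff s P * (w (toExp N s) : ℤ)) = eval (fun i => (z i : ℤ)) P := by
      intro w z hw
      rw [eval_eq']
      refine Finset.sum_congr rfl fun s hs => ?_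
      rw [hw]
      push_cast
      congr 1
      refine Finset.prod_congr rfl fun i _ => ?_
      rw [toExp_val s (hsupp s hs)]
    constructor
    · rintro ⟨y, hy⟩
      set z : Fin (k + 1) → ℕ := Fin.cons x y with hz
      let w : Exp (k + 1) N → ℕ := fun f => ∏ i, z i ^ (f i : ℕ)
      refine ⟨w, ?_, ?_⟩
      · intro i
        fin_cases i
        · simp [lins, w]
        · simp only [lins]
          have h1 : w (unit (k + 1) N 0) = x := by
            change ∏ i, z i ^ (unit (k + 1) N 0 i : ℕ) = x
            rw [Finset.prod_eq_single 0]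
            · rw [unit_val hN1]
              simp [hz]
            · intro j _ hj
              rw [unit_val hN1]
              simp [hj]
            · intro h
              exact absurd (mem_univ _) h
          simp [h1]
        · have h1 := hP w z (fun f => rfl)
          rw [hy] at h1
          simpa [lins] using h1
      · intro p hp
        simp only [mprods, mem_filter, mem_univ, true_and] at hp
        simp only [w]
        rw [← Finset.prod_mul_distrib]
        refine Finset.prod_congr rfl fun i _ => ?_
        rw [← pow_add, hp i]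
    · rintro ⟨w, hw1, hw2⟩
      have h0 : w 0 = 1 := by
        have := hw1 0
        simp only [lins] at this
        simp at this
        have h : ((w 0 : ℕ) : ℤ) = 1 := by linarith
        exact_mod_cast h
      have h1 : w (unit (k + 1) N 0) = x := by
        have := hw1 1
        simp only [lins] at this
        simp at this
        have h : ((w (unit (k + 1) N 0) : ℕ) : ℤ) = x := by linarith
        exact_mod_cast h
      have hmon := monomial_system hN1 w h0 hw2
      have h2 := hw1 2
      simp only [lins] at h2
      refine ⟨fun i => w (unit (k + 1) N i.succ), ?_⟩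
      have h3 : (Fin.cons x (fun i : Fin k => w (unit (k + 1) N i.succ)) : Fin (k + 1) → ℕ) =
          fun i => w (unit (k + 1) N i) := by
        funext i
        refine Fin.cases ?_ (fun j => ?_) i
        · simp [h1]
        · simp
      rw [h3]
      rw [← hP w (fun i => w (unit (k + 1) N i)) hmon]
      simpa using h2

/-- **Every recursively enumerable set of positive integers is the set of positive values, on
natural numbers, of an integer polynomial of total degree at most 4.** -/
theorem exists_quartic_of_rePred {S : ℕ → Prop} (hS : REPred S) :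
    ∃ (n : ℕ) (f : MvPolynomial (Fin n) ℤ), f.totalDegree ≤ 4 ∧ ∀ p : ℕ, 0 < p →
      ((∃ x : Fin n → ℕ, eval (fun i => (x i : ℤ)) f = (p : ℤ)) ↔ S p) := by
  classical
  obtain ⟨k, P, hP⟩ := Pool.Agent.MRDP.exists_mvPolynomial_nat hS
  obtain ⟨N, lins, hl, hsys⟩ := exists_system k P
  obtain ⟨n, f, hf, hspec⟩ := exists_quartic (mprods (k + 1) N) lins hl
  refine ⟨n, f, hf, fun p hp => ?_⟩
  rw [hspec p hp, ← hsys p, hP p]

/-- primality is recursively enumerable -/
theorem rePred_prime : REPred Nat.Prime := by
  apply ComputablePred.to_re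
  apply PrimrecPred.computablePred
  have h1 : PrimrecRel fun (d p : ℕ) => ¬ (p % d = 0 ∧ ¬ d = 1) := by
    have hmod : Primrec fun (q : ℕ × ℕ) => q.2 % q.1 :=
      Primrec.nat_mod.comp Primrec.snd Primrec.fst
    have e1 : PrimrecPred fun (q : ℕ × ℕ) => q.2 % q.1 = 0 :=
      Primrec.eq.comp hmod (Primrec.const 0)
    have e2 : PrimrecPred fun (q : ℕ × ℕ) => q.1 = 1 :=
      Primrec.eq.comp Primrec.fst (Primrec.const 1)
    exact (e1.and e2.not).not
  have h2 := h1.forall_lt
  have h3 : PrimrecPred fun (p : ℕ) => 2 ≤ p ∧ ∀ d < p, ¬ (p % d = 0 ∧ ¬ d = 1) :=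
    (Primrec.nat_le.comp (Primrec.const 2) Primrec.id).and
      (h2.comp Primrec.id Primrec.id)
  refine h3.of_eq fun p => ?_
  rw [Nat.prime_def_lt]
  refine and_congr_right fun _ => forall_congr' fun d => forall_congr' fun _ => ?_
  rw [Nat.dvd_iff_mod_eq_zero]
  tauto

/-- there is a prime-representing polynomial of total degree at most 4 -/
theorem prime_quartic : ∃ (n : ℕ) (f : MvPolynomial (Fin n) ℤ), f.totalDegree ≤ 4 ∧
    ∀ p : ℕ, 0 < p → ((∃ x : Fin n → ℕ, eval (fun i => (x i : ℤ)) f = (p : ℤ)) ↔ p.Prime) :=
  exists_quartic_of_rePred rePred_prime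

end Pool.Agent.Helper91_PrimePoly
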